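import Pool.Agent.H35.RD.Stm

set_option autoImplicit false

open Finset
open scoped Classical

namespace Pool.Agent.H35.RD

theorem bip_count {V : Type} [Fintype V] (x y : V) (h : x ≠ y) :
    4 * (univ.filter (fun ε : V → Bool => ε x = true ∧ ε y = false)).card =
      (univ : Finset (V → Bool)).card := by
  have h1 : (univ.filter (fun ε : V → Bool => ε x = true ∧ ε y = false)) =
      Fintype.piFinset (fun v => if v = x then {true} else if v = y then {false} else univ) := by
    ext ε
    rw [Fintype.mem_piFinset]
    simp only [mem_filter, mem_univ, true_and]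
    constructor
    · rintro ⟨hx, hy⟩ v
      by_cases hvx : v = x
      · subst hvx; simp [hx]
      · by_cases hvy : v = y
        · subst hvy; simp [hy, hvx]
        · simp [hvx, hvy]
    · intro hv
      have a := hv x
      have b := hv y
      simp only [if_true, h.symm, if_false, mem_singleton] at a b
      exact ⟨a, b⟩
  rw [h1, Fintype.card_piFinset]
  have h2 : (univ : Finset (V → Bool)).card = ∏ _v : V, 2 := by
    rw [Finset.card_univ, Fintype.card_fun]
    simp
  rw [h2]
  rw [← Finset.mul_prod_erase univ _ (mem_univ x)]
  rw [← Finset.mul_prod_erase univ (fun _ => 2) (mem_univ x)]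
  have hy : y ∈ univ.erase x := mem_erase.mpr ⟨h.symm, mem_univ _⟩
  rw [← Finset.mul_prod_erase (univ.erase x) _ hy]
  rw [← Finset.mul_prod_erase (univ.erase x) (fun _ => 2) hy]
  have h3 : ∏ v ∈ (univ.erase x).erase y, (if v = x then ({true} : Finset Bool) else
      if v = y then {false} else univ).card = ∏ _v ∈ (univ.erase x).erase y, 2 := by
    apply Finset.prod_congr rfl
    intro v hv
    rw [mem_erase, mem_erase] at hv
    simp [hv.1, hv.2.1]
  rw [h3]
  simp [h.symm]
  ring

theorem bip : S_BIP := by
  intro V _ G
  by_contra hc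
  push Not at hc
  have h1 : ∑ ε : V → Bool, (4 * (univ.filter (fun z : V × V => ε z.1 = true ∧ ε z.2 = false ∧
      G.Adj z.1 z.2)).card) < ∑ _ε : V → Bool, prs G := by
    apply Finset.sum_lt_sum_of_nonempty univ_nonempty
    intro ε _
    have := hc (univ.filter (fun v => ε v = true))
    simpa using this
  have h2 : ∑ ε : V → Bool, (4 * (univ.filter (fun z : V × V => ε z.1 = true ∧ ε z.2 = false ∧
      G.Adj z.1 z.2)).card) = ∑ _ε : V → Bool, prs G := by
    have e1 : ∀ ε : V → Bool, (univ.filter (fun z : V × V => ε z.1 = true ∧ ε z.2 = false ∧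
        G.Adj z.1 z.2)).card = ∑ z ∈ univ.filter (fun z : V × V => G.Adj z.1 z.2),
          if (ε z.1 = true ∧ ε z.2 = false) then 1 else 0 := by
      intro ε
      rw [← Finset.card_filter, Finset.filter_filter]
      congr 1
      ext z
      simp only [mem_filter, mem_univ, true_and]
      tauto
    rw [← Finset.mul_sum]
    simp_rw [e1]
    rw [Finset.sum_comm, Finset.mul_sum]
    have e2 : ∀ z ∈ univ.filter (fun z : V × V => G.Adj z.1 z.2),
        4 * ∑ ε : V → Bool, (if (ε z.1 = true ∧ ε z.2 = false) then 1 else 0) =
          (univ : Finset (V → Bool)).card := by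
      intro z hz
      rw [← Finset.card_filter]
      exact bip_count z.1 z.2 (by simpa using (mem_filter.mp hz).2.ne)
    rw [Finset.sum_congr rfl e2]
    simp only [sum_const, smul_eq_mul, prs]
    ring
  exact absurd h2 h1.ne

end Pool.Agent.H35.RD
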