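import Pool.Agent.H35.RD.Stm

set_option autoImplicit false

open Finset
open scoped Classical

/-!
# Stub RD-C4R: destroying the cycles of length 4 in a bipartite graph without cycles of length 8
-/

namespace Pool.Agent.H35.RD

namespace C4R

section

variable {A B : Type} [Fintype B]

/-- no cycle of length 8 -/
def No8 (r : A → B → Prop) : Prop :=
  ∀ a0 a1 a2 a3 b0 b1 b2 b3, [a0, a1, a2, a3].Nodup → [b0, b1, b2, b3].Nodup →
      r a0 b0 → r a1 b0 → r a1 b1 → r a2 b1 → r a2 b2 → r a3 b2 → r a3 b3 → ¬ r a0 b3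

/-- `x`, `y` are different common neighbours of `b` and of `w ≠ b` -/
def Lk (r : A → B → Prop) (b w : B) (x y : A) : Prop :=
  w ≠ b ∧ x ≠ y ∧ r x b ∧ r y b ∧ r x w ∧ r y w

omit [Fintype B] in
lemma Lk.symm {r : A → B → Prop} {b w : B} {x y : A} (h : Lk r b w x y) : Lk r b w y x :=
  ⟨h.1, h.2.1.symm, h.2.2.2.1, h.2.2.1, h.2.2.2.2.2, h.2.2.2.2.1⟩

omit [Fintype B] in
lemma Lk.mk' {r : A → B → Prop} {b w : B} {x y x' y' : A} (h : Lk r b w x y)
    (h' : Lk r b w x' y') (hn : x ≠ y') : Lk r b w x y' :=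
  ⟨h.1, hn, h.2.2.1, h'.2.2.2.1, h.2.2.2.2.1, h'.2.2.2.2.2⟩

omit [Fintype B] in
lemma star {r : A → B → Prop} (h : No8 r) {b w1 w2 w3 : B} {x0 x1 x2 x3 : A} (h12 : w1 ≠ w2)
    (h13 : w1 ≠ w3) (h23 : w2 ≠ w3) (l1 : Lk r b w1 x0 x1) (l2 : Lk r b w2 x1 x2)
    (l3 : Lk r b w3 x2 x3) (n02 : x0 ≠ x2) (n03 : x0 ≠ x3) (n13 : x1 ≠ x3) : False := by
  obtain ⟨p1, q1, s1, t1, u1, v1⟩ := l1
  obtain ⟨p2, q2, s2, t2, u2, v2⟩ := l2
  obtain ⟨p3, q3, s3, t3, u3, v3⟩ := l3
  refine h x0 x1 x2 x3 w1 w2 w3 b ?_ ?_ u1 v1 u2 v2 u3 v3 t3 s1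
  · simp [q1, n02, n03, q2, n13, q3]
  · simp [h12, h13, h23, p1, p2, p3]

/-- `w` links `x` to some other point -/
def Hub (r : A → B → Prop) (b : B) (x : A) (w : B) : Prop := ∃ y, Lk r b w x y

/-- `x` and `y` are linked -/
def Rel (r : A → B → Prop) (b : B) (x y : A) : Prop := ∃ w, Lk r b w x y

/-- `w` links `a` to some other point of `N` -/
def Bad (r : A → B → Prop) (N : Finset A) (b : B) (a : A) (w : B) : Prop :=
  w ≠ b ∧ r a w ∧ ∃ a' ∈ N, a' ≠ a ∧ r a' w

/-- some point other than `a` is in `N b` and in `N w` -/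
def Rel2 (N : B → Finset A) (a : A) (b w : B) : Prop := ∃ a', a' ≠ a ∧ a' ∈ N b ∧ a' ∈ N w

/-- membership -/
def Mem1 (N : B → Finset A) (a : A) (b : B) : Prop := a ∈ N b

/-- membership -/
def Mem2 (I : A → Finset B) (a : A) (b : B) : Prop := b ∈ I a

/-- `x` is linked to other points by at least three points. -/
def Rich (r : A → B → Prop) (b : B) (x : A) : Prop :=
  3 ≤ (univ.filter (fun w : B => Hub r b x w)).card

lemma Rich.ex {r : A → B → Prop} {b : B} {x : A} (h : Rich r b x) (u1 u2 : B) :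
    ∃ u y, u ≠ u1 ∧ u ≠ u2 ∧ Lk r b u x y := by
  have h1 : ({u1, u2} : Finset B).card < (univ.filter (fun w : B => Hub r b x w)).card :=
    lt_of_le_of_lt Finset.card_le_two (by unfold Rich at h; omega)
  obtain ⟨u, hu, hu'⟩ := Finset.exists_mem_notMem_of_card_lt_card h1
  rw [mem_filter] at hu
  obtain ⟨y, hy⟩ := hu.2
  rw [mem_insert, mem_singleton, not_or] at hu'
  exact ⟨u, y, hu'.1, hu'.2, hy⟩

/-- the case `w1 = w2` -/
lemma case12 {r : A → B → Prop} (h : No8 r) {b w w3 : B} {x0 x1 x2 x3 : A} (r1 : Rich r b x1)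
    (l1 : Lk r b w x0 x1) (l2 : Lk r b w x1 x2) (l3 : Lk r b w3 x2 x3) (hw : w ≠ w3)
    (n02 : x0 ≠ x2) (n03 : x0 ≠ x3) (n13 : x1 ≠ x3) : False := by
  obtain ⟨u, y, h1, h2, ly⟩ := r1.ex w w3
  by_cases hy2 : y = x2
  · subst hy2
    exact star h h2.symm hw.symm h1 l3.symm ly.symm l1.symm n13.symm n03.symm n02.symm
  · by_cases hy3 : y = x3
    · subst hy3
      exact star h h2.symm hw.symm h1 l3 ly.symm l1.symm l2.2.1.symm n02.symm n03.symm
    · exact star h hw.symm h2.symm h1.symm l3.symm l2.symm ly n13.symm (Ne.symm hy3) (Ne.symm hy2)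

/-- the case `w1 = w3` -/
lemma case13 {r : A → B → Prop} (h : No8 r) {b w w2 : B} {x0 x1 x2 x3 : A} (r0 : Rich r b x0)
    (l1 : Lk r b w x0 x1) (l2 : Lk r b w2 x1 x2) (l3 : Lk r b w x2 x3) (hw : w ≠ w2)
    (n02 : x0 ≠ x2) (n03 : x0 ≠ x3) (n13 : x1 ≠ x3) : False := by
  obtain ⟨u, y, h1, h2, ly⟩ := r0.ex w w2
  by_cases hy1 : y = x1
  · subst hy1
    exact star h h2 h1 hw.symm ly l2 l3 n02 n03 n13
  · by_cases hy2 : y = x2
    · subst hy2
      exact star h h2 h1 hw.symm ly l2.symm (l1.symm.mk' l3 n13) l1.2.1 n03 l3.2.1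
    · exact star h h1 h2 hw ly.symm l1 l2 hy1 hy2 n02

/-- the case `w1 = w2 = w3` -/
lemma case123 {r : A → B → Prop} (h : No8 r) {b w : B} {x0 x1 x2 x3 : A}
    (r0 : Rich r b x0) (r1 : Rich r b x1) (r2 : Rich r b x2) (r3 : Rich r b x3)
    (l1 : Lk r b w x0 x1) (l2 : Lk r b w x1 x2) (l3 : Lk r b w x2 x3)
    (n02 : x0 ≠ x2) (n03 : x0 ≠ x3) (n13 : x1 ≠ x3) : False := by
  obtain ⟨u, y, h1, -, ly⟩ := r0.ex w w
  -- among `x1, x2, x3` there are two different from `y`
  have key : ∃ xi xj, Rich r b xj ∧ xj ≠ x0 ∧ xj ≠ y ∧ xi ≠ x0 ∧ xi ≠ y ∧ xi ≠ xj ∧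
      Lk r b w x0 xi ∧ Lk r b w x0 xj ∧ Lk r b w xi xj := by
    have n01 := l1.2.1
    have n12 := l2.2.1
    have n23 := l3.2.1
    have l02 : Lk r b w x0 x2 := l1.mk' l2 n02
    have l03 : Lk r b w x0 x3 := l1.mk' l3 n03
    have l13 : Lk r b w x1 x3 := l2.mk' l3 n13
    by_cases e1 : y = x1
    · subst e1
      exact ⟨x2, x3, r3, n03.symm, n13.symm, n02.symm, n12.symm, n23, l02, l03, l3⟩
    · by_cases e2 : y = x2
      · subst e2
        exact ⟨x1, x3, r3, n03.symm, n23.symm, n01.symm, n12, n13, l1, l03, l13⟩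
      · exact ⟨x1, x2, r2, n02.symm, Ne.symm e2, n01.symm, Ne.symm e1, n12, l1, l02, l2⟩
  obtain ⟨xi, xj, rj, nj0, njy, ni0, niy, nij, li, lj, lij⟩ := key
  obtain ⟨u', z, h3, h4, lz⟩ := rj.ex w u
  by_cases hz : z = y
  · subst hz
    exact star h h1.symm h3.symm h4.symm li.symm ly lz.symm niy nij nj0.symm
  · by_cases hz0 : z = x0
    · subst hz0
      exact star h h4.symm h1 h3 ly.symm lz.symm lij.symm njy.symm niy.symm ni0.symm
    · exact star h h1 h4.symm h3.symm ly.symm lj lz njy.symm (Ne.symm hz) (Ne.symm hz0)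

lemma nopath {r : A → B → Prop} (h : No8 r) {b w1 w2 w3 : B} {x0 x1 x2 x3 : A}
    (r0 : Rich r b x0) (r1 : Rich r b x1) (r2 : Rich r b x2) (r3 : Rich r b x3)
    (l1 : Lk r b w1 x0 x1) (l2 : Lk r b w2 x1 x2) (l3 : Lk r b w3 x2 x3)
    (n02 : x0 ≠ x2) (n03 : x0 ≠ x3) (n13 : x1 ≠ x3) : False := by
  by_cases e12 : w1 = w2
  · subst e12
    by_cases e13 : w1 = w3
    · subst e13
      exact case123 h r0 r1 r2 r3 l1 l2 l3 n02 n03 n13
    · exact case12 h r1 l1 l2 l3 e13 n02 n03 n13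
  · by_cases e23 : w2 = w3
    · subst e23
      exact case12 h r2 l3.symm l2.symm l1.symm (Ne.symm e12) n13.symm n03.symm n02.symm
    · by_cases e13 : w1 = w3
      · subst e13
        exact case13 h r0 l1 l2 l3 e12 n02 n03 n13
      · exact star h e12 e13 e23 l1 l2 l3 n02 n03 n13

/-- In every nonempty set of rich points some point is related to at most two others. -/
lemma few {r : A → B → Prop} (h : No8 r) {b : B} (T : Finset A) (hT : ∀ x ∈ T, Rich r b x)
    (hne : T.Nonempty) :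
    ∃ v ∈ T, (T.filter (fun u => u ≠ v ∧ Rel r b v u)).card ≤ 2 := by
  by_contra hcon
  push Not at hcon
  have pick : ∀ v ∈ T, ∀ a c : A, ∃ u ∈ T, u ≠ a ∧ u ≠ c ∧ Rel r b v u := by
    intro v hv a c
    have h1 : ({a, c} : Finset A).card < (T.filter (fun u => u ≠ v ∧ Rel r b v u)).card :=
      lt_of_le_of_lt Finset.card_le_two (hcon v hv)
    obtain ⟨u, hu, hu'⟩ := Finset.exists_mem_notMem_of_card_lt_card h1
    rw [mem_filter] at hu
    rw [mem_insert, mem_singleton, not_or] at hu'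
    exact ⟨u, hu.1, hu'.1, hu'.2, hu.2.2⟩
  obtain ⟨x1, h1⟩ := hne
  obtain ⟨x2, h2, -, -, w2, l2⟩ := pick x1 h1 x1 x1
  obtain ⟨x3, h3, n31, -, w3, l3⟩ := pick x2 h2 x1 x1
  obtain ⟨x0, h0, n02, n03, w1, l1⟩ := pick x1 h1 x2 x3
  exact nopath h (hT _ h0) (hT _ h1) (hT _ h2) (hT _ h3) l1.symm l2 l3 n02 n03 n31.symm

end

section

variable {A B : Type} [Fintype A] [Fintype B]

/-- A large set of neighbours of `b`, each of which is linked to the others by at most two
points. -/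
lemma good (hI : S_IND) {r : A → B → Prop} (h : No8 r) (b : B) :
    ∃ N : Finset A, (∀ a ∈ N, r a b) ∧ (univ.filter (fun a => r a b)).card ≤ 6 * N.card ∧
      ∀ a ∈ N, (univ.filter (fun w : B => Bad r N b a w)).card ≤ 2 := by
  have hsplit := Finset.card_filter_add_card_filter_not (s := univ.filter (fun a => r a b))
    (p := fun a => Rich r b a)
  by_cases hc : (univ.filter (fun a => r a b)).card ≤
      2 * ((univ.filter (fun a => r a b)).filter (fun a => ¬ Rich r b a)).card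
  · refine ⟨(univ.filter (fun a => r a b)).filter (fun a => ¬ Rich r b a), ?_, by omega, ?_⟩
    · intro a ha
      rw [mem_filter, mem_filter] at ha
      exact ha.1.2
    · intro a ha
      rw [mem_filter, mem_filter] at ha
      have h1 := ha.2
      unfold Rich at h1
      refine le_trans (card_le_card ?_) (Nat.le_of_lt_succ (not_le.1 h1))
      intro w hw
      rw [mem_filter] at hw ⊢
      obtain ⟨-, hwb, haw, a', ha', hne, ha'w⟩ := hw
      rw [mem_filter, mem_filter] at ha'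
      exact ⟨mem_univ _, a', hwb, hne.symm, ha.1.2, ha'.1.2, haw, ha'w⟩
  · obtain ⟨I, hIS, hcard, hind⟩ := hI A ((univ.filter (fun a => r a b)).filter (Rich r b))
      (Rel r b) (fun u v ⟨w, hw⟩ => ⟨w, hw.symm⟩)
      (fun T hT hne => few h T (fun x hx => (mem_filter.1 (hT hx)).2) hne)
    have hIr : ∀ a ∈ I, r a b := fun a ha => (mem_filter.1 (mem_filter.1 (hIS ha)).1).2
    refine ⟨I, hIr, ?_, ?_⟩
    · change #{a ∈ {a | r a b} | Rich r b a} ≤ 3 * I.card at hcard
      omega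
    intro a ha
    refine le_trans (le_of_eq ?_) (Nat.zero_le 2)
    rw [card_eq_zero, filter_eq_empty_iff]
    rintro w - ⟨hwb, haw, a', ha', hne, ha'w⟩
    exact hind a ha a' ha' hne.symm ⟨w, hwb, hne.symm, hIr a ha, hIr a' ha', haw, ha'w⟩

lemma count_right (s : A → B → Prop) :
    (univ.filter (fun z : A × B => s z.1 z.2)).card = ∑ b, (univ.filter (fun a => s a b)).card := by
  simp only [card_filter]
  rw [← univ_product_univ, sum_product_right]

lemma count_left (s : A → B → Prop) :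
    (univ.filter (fun z : A × B => s z.1 z.2)).card = ∑ a, (univ.filter (fun b => s a b)).card := by
  simp only [card_filter]
  rw [← univ_product_univ, sum_product]

end

end C4R

open C4R in
theorem c4r : S_IND → S_C4R := by
  intro hI A B _ _ r h
  choose N hN1 hN2 hN3 using good hI (r := r) h
  -- the second step
  have step2 : ∀ a : A, ∃ I : Finset B, (∀ b ∈ I, a ∈ N b) ∧
      (univ.filter (fun b => Mem1 N a b)).card ≤ 3 * I.card ∧
      ∀ b ∈ I, ∀ w ∈ I, b ≠ w → ¬ Rel2 N a b w := by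
    intro a
    obtain ⟨I, hIS, hcard, hind⟩ := hI B (univ.filter (fun b => Mem1 N a b))
      (Rel2 N a) (fun u v ⟨w, h1, h2, h3⟩ => ⟨w, h1, h3, h2⟩) (by
        intro T hT ⟨b, hb⟩
        refine ⟨b, hb, le_trans (card_le_card ?_) (hN3 b a (mem_filter.1 (hT hb)).2)⟩
        intro w hw
        rw [mem_filter] at hw
        obtain ⟨hwT, hwb, a', hne, h1, h2⟩ := hw
        rw [mem_filter]
        exact ⟨mem_univ _, hwb, hN1 w a (mem_filter.1 (hT hwT)).2, a', h1, hne, hN1 w a' h2⟩)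
    exact ⟨I, fun b hb => (mem_filter.1 (hIS hb)).2, hcard, hind⟩
  choose I hI1 hI2 hI3 using step2
  refine ⟨Mem2 I, fun a b hab => hN1 b a (hI1 a b hab), ?_, ?_⟩
  · intro a a' b b' hne hne' h1 h2 h3 h4
    exact hI3 a b h1 b' h2 hne' ⟨a', hne.symm, hI1 a' b h3, hI1 a' b' h4⟩
  · have e1 : (univ.filter (fun z : A × B => r z.1 z.2)).card ≤
        6 * (univ.filter (fun z : A × B => Mem1 N z.1 z.2)).card := by
      rw [count_right r, count_right (Mem1 N), mul_sum]
      refine sum_le_sum fun b _ => ?_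
      refine (hN2 b).trans (le_of_eq ?_)
      congr 2
      ext a
      rw [mem_filter]
      exact ⟨fun h => ⟨mem_univ _, h⟩, fun h => h.2⟩
    have e2 : (univ.filter (fun z : A × B => Mem1 N z.1 z.2)).card ≤
        3 * (univ.filter (fun z : A × B => Mem2 I z.1 z.2)).card := by
      rw [count_left (Mem1 N), count_left (Mem2 I), mul_sum]
      refine sum_le_sum fun a _ => ?_
      refine (hI2 a).trans (le_of_eq ?_)
      congr 2
      ext b
      rw [mem_filter]
      exact ⟨fun h => ⟨mem_univ _, h⟩, fun h => h.2⟩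
    omega

end Pool.Agent.H35.RD
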