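import Pool.Agent.H35.RD.Stm

set_option autoImplicit false

open Finset
open scoped Classical

namespace Pool.Agent.H35.RD

theorem con1 : S_CON1 := by
  rintro P α hα ⟨C, hC⟩
  refine ⟨max C 0, fun n => ?_⟩
  by_cases hn : n ≤ 1
  · refine ⟨0, fun i => i.elim0, ?_, fun i => i.elim0, ?_⟩
    · rw [Nat.cast_zero]
      positivity
    · intro x y hxy
      exfalso
      apply hxy
      apply Fin.ext
      have := x.isLt
      have := y.isLt
      omega
  · push Not at hn
    obtain ⟨q, H, hq, hH, hR⟩ := hC (n - 1) (Fin n) ⊤ (by omega) (by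
      intro v
      unfold dg
      have : (univ.filter (fun w => (⊤ : SimpleGraph (Fin n)).Adj v w)) ⊆ univ.erase v := by
        intro w hw
        simp only [mem_filter, mem_univ, true_and, SimpleGraph.top_adj] at hw
        exact mem_erase.mpr ⟨hw.symm, mem_univ _⟩
      have := card_le_card this
      rw [card_erase_of_mem (mem_univ _), card_univ, Fintype.card_fin] at this
      convert this)
    refine ⟨q, H, ?_, hH, ?_⟩
    · refine hq.trans ?_
      have h1 : ((n - 1 : ℕ) : ℝ) ^ α ≤ (n : ℝ) ^ α := by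
        apply Real.rpow_le_rpow (by positivity) _ hα.le
        exact_mod_cast Nat.sub_le n 1
      exact mul_le_mul (le_max_left _ _) h1 (by positivity) (le_max_right _ _)
    · intro x y hxy
      exact (hR x y).mp hxy

theorem con2 : S_CON2 := by
  rintro P hsub hbot α hα ⟨C, hC⟩
  have hC' : (0 : ℝ) < max C 1 := lt_of_lt_of_le one_pos (le_max_right _ _)
  refine ⟨(1 / max C 1) ^ (1 / α), by positivity, ?_⟩
  intro q N hq hN
  obtain ⟨q₀, H, hq₀, hH, hR⟩ := hC N
  have hle : q₀ ≤ q := by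
    have h1 : (q₀ : ℝ) ≤ max C 1 * (N : ℝ) ^ α :=
      hq₀.trans (mul_le_mul_of_nonneg_right (le_max_left _ _) (by positivity))
    have h2 : (N : ℝ) ^ α ≤ (1 / max C 1) * q := by
      have h3 := Real.rpow_le_rpow (by positivity) hN hα.le
      rw [Real.mul_rpow (by positivity) (by positivity), ← Real.rpow_mul (by positivity),
        ← Real.rpow_mul (by positivity), one_div_mul_cancel hα.ne', Real.rpow_one,
        Real.rpow_one] at h3
      exact h3
    have h3 : (q₀ : ℝ) ≤ q := by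
      calc (q₀ : ℝ) ≤ max C 1 * (N : ℝ) ^ α := h1
        _ ≤ max C 1 * ((1 / max C 1) * q) := mul_le_mul_of_nonneg_left h2 hC'.le
        _ = q := by field_simp
    exact_mod_cast h3
  refine ⟨fun e => if h : ∃ i, e ∈ (H i).edgeSet then Fin.castLE hle h.choose else ⟨0, hq⟩, ?_⟩
  intro i
  by_cases hi : i.val < q₀
  · refine hsub N (H ⟨i.val, hi⟩) _ ?_ (hH _)
    rintro x y ⟨hne, h⟩
    have hex : ∃ j, s(x, y) ∈ (H j).edgeSet := by
      obtain ⟨j, hj⟩ := hR x y hne
      exact ⟨j, hj⟩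
    simp only [dif_pos hex] at h
    have h2 := hex.choose_spec
    have h3 : hex.choose = ⟨i.val, hi⟩ := by
      apply Fin.ext
      have h4 := congrArg Fin.val h
      exact h4
    rw [h3] at h2
    exact h2
  · have : mono (fun e => if h : ∃ i, e ∈ (H i).edgeSet then Fin.castLE hle h.choose
        else ⟨0, hq⟩) i = ⊥ := by
      rw [eq_bot_iff]
      rintro x y ⟨hne, h⟩
      exfalso
      have hex : ∃ j, s(x, y) ∈ (H j).edgeSet := by
        obtain ⟨j, hj⟩ := hR x y hne
        exact ⟨j, hj⟩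
      simp only [dif_pos hex] at h
      apply hi
      rw [← h]
      exact hex.choose.isLt
    rw [this]
    exact hbot N

theorem sum_mono {N q : ℕ} (χ : Sym2 (Fin N) → Fin q) :
    ∑ i, prs (mono χ i) = N * N - N := by
  have h1 : ∀ i, prs (mono χ i) = ((univ.filter (fun z : Fin N × Fin N => z.1 ≠ z.2)).filter
      (fun z => χ s(z.1, z.2) = i)).card := by
    intro i
    unfold prs
    rw [filter_filter]
    congr 1
    ext z
    simp only [mem_filter, mem_univ, true_and]
    rfl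
  simp_rw [h1]
  rw [← Finset.card_eq_sum_card_fiberwise (f := fun z : Fin N × Fin N => χ s(z.1, z.2))
    (s := univ.filter (fun z : Fin N × Fin N => z.1 ≠ z.2)) (t := univ) (fun _ _ => by simp)]
  have h2 : (univ.filter (fun z : Fin N × Fin N => z.1 ≠ z.2)) =
      (univ : Finset (Fin N)).offDiag := by
    ext z
    simp
  rw [h2, Finset.offDiag_card]
  simp

theorem con3 : S_CON3 := by
  rintro P α hα hα1 ⟨c, hc, h⟩
  refine ⟨c ^ α / 4, by positivity, max 2 (⌈c⌉₊), ?_⟩
  intro n hn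
  have hn2 : 2 ≤ n := (le_max_left _ _).trans hn
  have hnc : c ≤ n := (Nat.le_ceil c).trans (by exact_mod_cast (le_max_right _ _).trans hn)
  have hn0 : (0 : ℝ) < n := by positivity
  set q := ⌈((n : ℝ) / c) ^ α⌉₊ with hq
  have hx1 : 1 ≤ ((n : ℝ) / c) ^ α := Real.one_le_rpow ((one_le_div hc).mpr hnc) hα.le
  have hqge : ((n : ℝ) / c) ^ α ≤ q := Nat.le_ceil _
  have hqle : (q : ℝ) ≤ 2 * ((n : ℝ) / c) ^ α := by
    have := (Nat.ceil_lt_add_one (by positivity : 0 ≤ ((n : ℝ) / c) ^ α)).le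
    linarith
  have hq1 : 1 ≤ q := by
    have : (1 : ℝ) ≤ q := hx1.trans hqge
    exact_mod_cast this
  obtain ⟨χ, hχ⟩ := h q n hq1 (by
    have h1 := Real.rpow_le_rpow (by positivity) hqge (by positivity : 0 ≤ 1 / α)
    rw [← Real.rpow_mul (by positivity), mul_one_div_cancel hα.ne', Real.rpow_one] at h1
    calc (n : ℝ) = c * (n / c) := by field_simp
      _ ≤ _ := mul_le_mul_of_nonneg_left h1 hc.le)
  have hsum := sum_mono χ
  have hq0 : (0 : ℝ) < q := by exact_mod_cast hq1
  obtain ⟨i, hi⟩ : ∃ i : Fin q, ((n : ℝ) * n - n) / q ≤ prs (mono χ i) := by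
    by_contra hcon
    push Not at hcon
    have hlt : ∑ i : Fin q, (prs (mono χ i) : ℝ) < ∑ _i : Fin q, ((n : ℝ) * n - n) / q :=
      Finset.sum_lt_sum_of_nonempty ⟨⟨0, hq1⟩, mem_univ _⟩ (fun i _ => hcon i)
    rw [sum_const, card_univ, Fintype.card_fin, nsmul_eq_mul, mul_div_cancel₀ _ hq0.ne'] at hlt
    have : ((∑ i, prs (mono χ i) : ℕ) : ℝ) = (n : ℝ) * n - n := by
      rw [hsum, Nat.cast_sub (Nat.le_mul_of_pos_left n (by omega))]
      push_cast
      ring
    rw [Nat.cast_sum] at this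
    linarith
  refine ⟨mono χ i, hχ i, le_trans ?_ hi⟩
  rw [le_div_iff₀ hq0]
  have h2 : (n : ℝ) ^ (2 - α) * (n : ℝ) ^ α = (n : ℝ) * n := by
    rw [← Real.rpow_add hn0, sub_add_cancel, Real.rpow_two, sq]
  calc c ^ α / 4 * (n : ℝ) ^ (2 - α) * q
      ≤ c ^ α / 4 * (n : ℝ) ^ (2 - α) * (2 * ((n : ℝ) / c) ^ α) :=
        mul_le_mul_of_nonneg_left hqle (by positivity)
    _ = (n : ℝ) ^ (2 - α) * (n : ℝ) ^ α / 2 := by
        rw [Real.div_rpow hn0.le hc.le]
        field_simp
        ring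
    _ = (n : ℝ) * n / 2 := by rw [h2]
    _ ≤ (n : ℝ) * n - n := by
        have : (2 : ℝ) ≤ n := by exact_mod_cast hn2
        nlinarith

end Pool.Agent.H35.RD
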