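import Pool.Agent.H35.RD.Cyc

set_option autoImplicit false

open Finset
open scoped Classical

namespace Pool.Agent.H35.RD

/-- the graph of a relation between a set and its complement -/
def cutG {V : Type} (S : Finset V) (r' : {x // x ∈ S} → {x // x ∉ S} → Prop) : SimpleGraph V where
  Adj x y := (∃ (hx : x ∈ S) (hy : y ∉ S), r' ⟨x, hx⟩ ⟨y, hy⟩) ∨
    (∃ (hy : y ∈ S) (hx : x ∉ S), r' ⟨y, hy⟩ ⟨x, hx⟩)
  symm := ⟨by
    rintro x y (h | h)
    · exact Or.inr h
    · exact Or.inl h⟩
  loopless := ⟨by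
    rintro x (⟨h1, h2, _⟩ | ⟨h1, h2, _⟩)
    · exact h2 h1
    · exact h2 h1⟩

theorem d8 (hC : S_C4R) (hB : S_BIP) : S_D8 := by
  intro V _ G hG
  obtain ⟨S, hS⟩ := hB V G
  obtain ⟨r', h1, h2, h3⟩ := hC {x // x ∈ S} {x // x ∉ S} (fun a b => G.Adj a.1 b.1) (by
    intro a0 a1 a2 a3 b0 b1 b2 b3 ha hb e1 e2 e3 e4 e5 e6 e7 e8
    apply hG
    have hab : ∀ (a : {x // x ∈ S}) (b : {x // x ∉ S}), a.1 ≠ b.1 := by
      intro a b h
      exact b.2 (h ▸ a.2)
    have hba : ∀ (a : {x // x ∈ S}) (b : {x // x ∉ S}), b.1 ≠ a.1 := fun a b h => hab a b h.symm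
    simp only [List.nodup_cons, List.mem_cons, List.not_mem_nil, or_false, not_or,
      List.nodup_nil, and_true, not_false_eq_true] at ha hb
    obtain ⟨⟨a01, a02, a03⟩, ⟨a12, a13⟩, a23⟩ := ha
    obtain ⟨⟨b01, b02, b03⟩, ⟨b12, b13⟩, b23⟩ := hb
    rw [← ne_eq, ← Subtype.coe_ne_coe] at a01 a02 a03 a12 a13 a23 b01 b02 b03 b12 b13 b23
    apply cyc_mk_nat (by omega) (fun i => if i = 0 then a0.1 else if i = 1 then b0.1 else
      if i = 2 then a1.1 else if i = 3 then b1.1 else if i = 4 then a2.1 else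
      if i = 5 then b2.1 else if i = 6 then a3.1 else b3.1)
    · intro u v huv hv
      interval_cases v <;> interval_cases u <;>
        simp only [if_true, if_false, reduceCtorEq, OfNat.ofNat_ne_zero, one_ne_zero,
          OfNat.ofNat_ne_one, Nat.reduceEqDiff, ne_eq] <;>
        first
        | exact hab _ _
        | exact hba _ _
        | assumption
    · intro i hi
      have : i < 7 := by omega
      interval_cases i <;>
        simp only [if_true, if_false, reduceCtorEq, OfNat.ofNat_ne_zero, one_ne_zero,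
          OfNat.ofNat_ne_one, Nat.reduceEqDiff, ne_eq, zero_add, Nat.reduceAdd] <;>
        first
        | assumption
        | (apply SimpleGraph.Adj.symm; assumption)
    · simpa using e8.symm)
  refine ⟨cutG S r', ?_, ⟨?_, ?_, ?_⟩, ?_⟩
  · rintro x y (⟨hx, hy, h⟩ | ⟨hy, hx, h⟩)
    · exact h1 _ _ h
    · exact (h1 _ _ h).symm
  · intro hc
    obtain ⟨x, hinj, hadj⟩ := cyc_el (n := 0) hc
    have f1 := hadj 0
    have f2 := hadj 1
    have f3 := hadj 2
    change (cutG S r').Adj (x 0) (x 1) at f1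
    change (cutG S r').Adj (x 1) (x 2) at f2
    change (cutG S r').Adj (x 2) (x 0) at f3
    rcases f1 with ⟨p1, p2, -⟩ | ⟨p1, p2, -⟩ <;> rcases f2 with ⟨q1, q2, -⟩ | ⟨q1, q2, -⟩ <;>
      rcases f3 with ⟨s1, s2, -⟩ | ⟨s1, s2, -⟩ <;> contradiction
  · intro hc
    obtain ⟨x, hinj, hadj⟩ := cyc_el (n := 1) hc
    have f1 := hadj 0
    have f2 := hadj 1
    have f3 := hadj 2
    have f4 := hadj 3
    change (cutG S r').Adj (x 0) (x 1) at f1
    change (cutG S r').Adj (x 1) (x 2) at f2
    change (cutG S r').Adj (x 2) (x 3) at f3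
    change (cutG S r').Adj (x 3) (x 0) at f4
    have n02 : x 0 ≠ x 2 := fun h => absurd (hinj h) (by decide)
    have n13 : x 1 ≠ x 3 := fun h => absurd (hinj h) (by decide)
    rcases f1 with ⟨p1, p2, p3⟩ | ⟨p1, p2, p3⟩ <;> rcases f2 with ⟨q1, q2, q3⟩ | ⟨q1, q2, q3⟩ <;>
      (try contradiction) <;>
      rcases f3 with ⟨s1, s2, s3⟩ | ⟨s1, s2, s3⟩ <;> (try contradiction) <;>
      rcases f4 with ⟨t1, t2, t3⟩ | ⟨t1, t2, t3⟩ <;> (try contradiction)
    · exact h2 ⟨x 0, p1⟩ ⟨x 2, q1⟩ ⟨x 1, p2⟩ ⟨x 3, s2⟩ (by simpa using n02) (by simpa using n13)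
        p3 t3 q3 s3
    · exact h2 ⟨x 1, p1⟩ ⟨x 3, s1⟩ ⟨x 0, p2⟩ ⟨x 2, q2⟩ (by simpa using n13) (by simpa using n02)
        p3 q3 t3 s3
  · intro hc
    apply hG
    obtain ⟨x, hinj, hadj⟩ := cyc_el (n := 5) hc
    apply cyc_mk (n := 5) x hinj
    intro i
    rcases hadj i with ⟨hx, hy, h⟩ | ⟨hy, hx, h⟩
    · exact h1 _ _ h
    · exact (h1 _ _ h).symm
  · have e1 : (univ.filter (fun z : V × V => z.1 ∈ S ∧ z.2 ∉ S ∧ G.Adj z.1 z.2)).card ≤
        (univ.filter (fun z : {x // x ∈ S} × {x // x ∉ S} => G.Adj z.1.1 z.2.1)).card := by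
      have hsub : univ.filter (fun z : V × V => z.1 ∈ S ∧ z.2 ∉ S ∧ G.Adj z.1 z.2) ⊆
          (univ.filter (fun z : {x // x ∈ S} × {x // x ∉ S} => G.Adj z.1.1 z.2.1)).image
            (fun z => (z.1.1, z.2.1)) := by
        intro z hz
        simp only [mem_filter, mem_univ, true_and] at hz
        simp only [mem_image, mem_filter, mem_univ, true_and]
        exact ⟨(⟨z.1, hz.1⟩, ⟨z.2, hz.2.1⟩), hz.2.2, rfl⟩
      exact (card_le_card hsub).trans card_image_le
    have e2 : 2 * (univ.filter (fun z : {x // x ∈ S} × {x // x ∉ S} => r' z.1 z.2)).card ≤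
        prs (cutG S r') := by
      have hd : Disjoint ((univ.filter (fun z : {x // x ∈ S} × {x // x ∉ S} => r' z.1 z.2)).image
          (fun z => (z.1.1, z.2.1)))
          ((univ.filter (fun z : {x // x ∈ S} × {x // x ∉ S} => r' z.1 z.2)).image
          (fun z => (z.2.1, z.1.1))) := by
        rw [Finset.disjoint_left]
        intro z hz hz'
        simp only [mem_image] at hz hz'
        obtain ⟨w, -, hw⟩ := hz
        obtain ⟨w', -, hw'⟩ := hz'
        rw [← hw] at hw'
        have := congrArg Prod.fst hw'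
        simp only at this
        exact w'.2.2 (this ▸ w.1.2)
      have c1 : ((univ.filter (fun z : {x // x ∈ S} × {x // x ∉ S} => r' z.1 z.2)).image
          (fun z => ((z.1.1, z.2.1) : V × V))).card =
          (univ.filter (fun z : {x // x ∈ S} × {x // x ∉ S} => r' z.1 z.2)).card := by
        apply card_image_of_injective
        intro z w h
        simp only [Prod.mk.injEq] at h
        exact Prod.ext (Subtype.ext h.1) (Subtype.ext h.2)
      have c2 : ((univ.filter (fun z : {x // x ∈ S} × {x // x ∉ S} => r' z.1 z.2)).image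
          (fun z => ((z.2.1, z.1.1) : V × V))).card =
          (univ.filter (fun z : {x // x ∈ S} × {x // x ∉ S} => r' z.1 z.2)).card := by
        apply card_image_of_injective
        intro z w h
        simp only [Prod.mk.injEq] at h
        exact Prod.ext (Subtype.ext h.2) (Subtype.ext h.1)
      have hu : ((univ.filter (fun z : {x // x ∈ S} × {x // x ∉ S} => r' z.1 z.2)).image
          (fun z => ((z.1.1, z.2.1) : V × V))) ∪
          ((univ.filter (fun z : {x // x ∈ S} × {x // x ∉ S} => r' z.1 z.2)).image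
          (fun z => ((z.2.1, z.1.1) : V × V))) ⊆
          univ.filter (fun z : V × V => (cutG S r').Adj z.1 z.2) := by
        intro z hz
        rw [mem_union] at hz
        simp only [mem_filter, mem_univ, true_and]
        rcases hz with hz | hz
        · simp only [mem_image, mem_filter, mem_univ, true_and] at hz
          obtain ⟨w, hw, rfl⟩ := hz
          exact Or.inl ⟨w.1.2, w.2.2, hw⟩
        · simp only [mem_image, mem_filter, mem_univ, true_and] at hz
          obtain ⟨w, hw, rfl⟩ := hz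
          exact Or.inr ⟨w.1.2, w.2.2, hw⟩
      have := card_le_card hu
      rw [card_union_of_disjoint hd, c1, c2] at this
      unfold prs
      omega
    omega

end Pool.Agent.H35.RD
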