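import Pool.Agent.H35.RD.Stm

set_option autoImplicit false

open Finset
open scoped Classical

namespace Pool.Agent.H35.RD

section
variable {V : Type} [Fintype V] (R : SimpleGraph V)

/-- the number of the larger neighbours of `x` which are smaller than `y` -/
noncomputable def upr (x y : V) : ℕ :=
  (univ.filter (fun w => R.Adj x w ∧ Fintype.equivFin V x < Fintype.equivFin V w ∧
    Fintype.equivFin V w < Fintype.equivFin V y)).card

theorem upr_lt (x y y' : V) (h : R.Adj x y) (hx : Fintype.equivFin V x < Fintype.equivFin V y)
    (hy : Fintype.equivFin V y < Fintype.equivFin V y') : upr R x y < upr R x y' := by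
  apply card_lt_card
  rw [Finset.ssubset_iff_of_subset]
  · refine ⟨y, ?_, ?_⟩
    · simp only [mem_filter, mem_univ, true_and]
      exact ⟨h, hx, hy⟩
    · simp
  · intro w hw
    simp only [mem_filter, mem_univ, true_and] at hw ⊢
    exact ⟨hw.1, hw.2.1, hw.2.2.trans hy⟩

theorem upr_dg (x y : V) (h : R.Adj x y) : upr R x y < dg R x := by
  apply card_lt_card
  rw [Finset.ssubset_iff_of_subset]
  · refine ⟨y, ?_, ?_⟩
    · simp only [mem_filter, mem_univ, true_and]
      exact h
    · simp
  · intro w hw
    simp only [mem_filter, mem_univ, true_and] at hw ⊢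
    exact hw.1

/-- the `i`-th forest -/
noncomputable def frs (i : ℕ) : SimpleGraph V where
  Adj x y := R.Adj x y ∧ ((Fintype.equivFin V x < Fintype.equivFin V y ∧ upr R x y = i) ∨
    (Fintype.equivFin V y < Fintype.equivFin V x ∧ upr R y x = i))
  symm := ⟨fun _ _ h => ⟨h.1.symm, h.2.symm⟩⟩
  loopless := ⟨fun _ h => R.irrefl h.1⟩

end

theorem fors : S_FOR := by
  intro P hP V _ R D hD
  refine ⟨fun i => frs R i.val, ?_, ?_⟩
  · intro i
    apply hP.pull V (Fin (Fintype.card V)) (frs R i.val)
      ((frs R i.val).comap (Fintype.equivFin V).symm) (Fintype.equivFin V)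
    · constructor
      · intro x y h
        simpa using h
      · intro x y y' _ _ h
        exact (Fintype.equivFin V).injective h
    · apply hP.forest
      intro x y y' hxy hxy' h h'
      rw [SimpleGraph.comap_adj] at h h'
      have e1 : upr R ((Fintype.equivFin V).symm x) ((Fintype.equivFin V).symm y) = i.val := by
        rcases h.2 with h2 | h2
        · exact h2.2
        · exfalso
          simp only [Equiv.apply_symm_apply] at h2
          exact absurd h2.1 (not_lt.mpr hxy.le)
      have e2 : upr R ((Fintype.equivFin V).symm x) ((Fintype.equivFin V).symm y') = i.val := by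
        rcases h'.2 with h2 | h2
        · exact h2.2
        · exfalso
          simp only [Equiv.apply_symm_apply] at h2
          exact absurd h2.1 (not_lt.mpr hxy'.le)
      rcases lt_trichotomy y y' with hlt | heq | hgt
      · have := upr_lt R ((Fintype.equivFin V).symm x) ((Fintype.equivFin V).symm y)
          ((Fintype.equivFin V).symm y') h.1 (by simpa using hxy) (by simpa using hlt)
        omega
      · exact heq
      · have := upr_lt R ((Fintype.equivFin V).symm x) ((Fintype.equivFin V).symm y')
          ((Fintype.equivFin V).symm y) h'.1 (by simpa using hxy') (by simpa using hgt)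
        omega
  · intro x y
    constructor
    · intro h
      rcases lt_trichotomy (Fintype.equivFin V x) (Fintype.equivFin V y) with hlt | heq | hgt
      · exact ⟨⟨upr R x y, (upr_dg R x y h).trans_le (hD x)⟩, h, Or.inl ⟨hlt, rfl⟩⟩
      · exact absurd ((Fintype.equivFin V).injective heq) h.ne
      · exact ⟨⟨upr R y x, (upr_dg R y x h.symm).trans_le (hD y)⟩, h, Or.inr ⟨hgt, rfl⟩⟩
    · rintro ⟨i, h⟩
      exact h.1

end Pool.Agent.H35.RD
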