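import Pool.Agent.H35.RD.Cyc

set_option autoImplicit false

open Finset
open scoped Classical

namespace Pool.Agent.H35.RD

theorem gir : S_GIR := by
  intro m
  constructor
  · intro V W _ _ H G f hf hG j hj hjm hc
    obtain ⟨j', h1, h2, h3⟩ := short hf hj hc
    exact hG j' h1 (h2.trans hjm) h3
  · intro n H h j hj hjm
    obtain ⟨k, rfl⟩ : ∃ n, j = n + 3 := ⟨j - 3, by omega⟩
    exact forest_free H h k

end Pool.Agent.H35.RD
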