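import Pool.Agent.H35.RD.Stm

/-! # Project RD, stub RD-IND (helper82) -/

set_option autoImplicit false

open Finset
open scoped Classical

namespace Pool.Agent.H35.RD

theorem ind : S_IND := by
  intro B S r hsym
  induction hn : S.card using Nat.strong_induction_on generalizing S with
  | _ n ih =>
    intro hT
    rcases S.eq_empty_or_nonempty with rfl | hne
    · refine ⟨∅, Finset.Subset.refl _, ?_, ?_⟩
      · subst hn; simp
      · intro u hu; simp at hu
    · obtain ⟨v, hv, hv2⟩ := hT S (Finset.Subset.refl _) hne
      set F := S.filter (fun u => u ≠ v ∧ r v u) with hF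
      set S' := (S.erase v) \ F with hS'
      have hFsub : F ⊆ S.erase v := by
        intro u hu
        rw [hF, Finset.mem_filter] at hu
        exact Finset.mem_erase.2 ⟨hu.2.1, hu.1⟩
      have hcard : S'.card + F.card + 1 = S.card := by
        have h1 := Finset.card_sdiff_add_card_eq_card hFsub
        have h2 := Finset.card_erase_add_one hv
        rw [← hS'] at h1
        omega
      have hsub : S' ⊆ S := (Finset.sdiff_subset).trans (Finset.erase_subset _ _)
      obtain ⟨I, hI1, hI2, hI3⟩ := ih S'.card (by omega) S' rfl
        (fun T hTs hTn => hT T (hTs.trans hsub) hTn)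
      have hvS' : v ∉ S' := by
        intro h
        rw [hS', Finset.mem_sdiff, Finset.mem_erase] at h
        exact h.1.1 rfl
      have hvI : v ∉ I := fun h => hvS' (hI1 h)
      have hnr : ∀ u ∈ I, ¬ r v u := by
        intro u hu hr
        have h1 := hI1 hu
        rw [hS', Finset.mem_sdiff, Finset.mem_erase] at h1
        exact h1.2 (Finset.mem_filter.2 ⟨h1.1.2, h1.1.1, hr⟩)
      refine ⟨insert v I, ?_, ?_, ?_⟩
      · intro u hu
        rcases Finset.mem_insert.1 hu with h1 | h1
        · rw [h1]; exact hv
        · exact hsub (hI1 h1)
      · rw [Finset.card_insert_of_notMem hvI]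
        omega
      · intro u hu w hw huw
        rcases Finset.mem_insert.1 hu with h1 | h1
        · subst h1
          rcases Finset.mem_insert.1 hw with h2 | h2
          · exact absurd h2.symm huw
          · exact hnr w h2
        · rcases Finset.mem_insert.1 hw with h2 | h2
          · subst h2
            exact fun h => hnr u h1 (hsym _ _ h)
          · exact hI3 u h1 w h2 huw

end Pool.Agent.H35.RD
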