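import Pool.Agent.H35.RD.Stm

/-!
# The induction on the maximum degree
-/

set_option autoImplicit false
set_option linter.unusedSectionVars false

open Finset
open scoped Classical

namespace Pool.Agent.H35.RD

theorem iter (hH : S_HALF) (hF : S_FOR) : S_ITER := by
  intro P hP α hα0 hα1 hDen
  obtain ⟨K, Δ₀, hK, hhalf⟩ := hH P hP α hα0 hα1 hDen
  set ρ : ℝ := (2 : ℝ) ^ (-α) with hρ
  have hρ0 : 0 < ρ := by positivity
  have hρ1 : ρ < 1 := Real.rpow_lt_one_of_one_lt_of_neg (by norm_num) (by linarith)
  set C : ℝ := max ((Δ₀ : ℝ) + 2) (K / (1 - ρ)) with hC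
  have hC1 : (Δ₀ : ℝ) + 2 ≤ C := le_max_left _ _
  have hC2 : K ≤ C * (1 - ρ) := by
    rw [← div_le_iff₀ (by linarith)]
    exact le_max_right _ _
  have hC0 : 0 ≤ C := by
    have : (0 : ℝ) ≤ Δ₀ := Nat.cast_nonneg _
    linarith
  refine ⟨C, ?_⟩
  intro D
  induction D using Nat.strong_induction_on with
  | _ D ih =>
    intro V _ R hD1 hdeg
    have hD1' : (1 : ℝ) ≤ D := by exact_mod_cast hD1
    by_cases hlt : D < max Δ₀ 2
    · obtain ⟨H, h1, h2⟩ := hF P hP V R D hdeg
      refine ⟨D, H, ?_, h1, h2⟩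
      have h3 : D ≤ Δ₀ + 2 := by
        rcases le_total Δ₀ 2 with h | h
        · rw [max_eq_right h] at hlt
          omega
        · rw [max_eq_left h] at hlt
          omega
      have h4 : (D : ℝ) ≤ C := le_trans (by exact_mod_cast h3) hC1
      have h5 : (1 : ℝ) ≤ (D : ℝ) ^ α := Real.one_le_rpow hD1' hα0.le
      nlinarith
    · have hΔ : Δ₀ ≤ D := by
        have := le_max_left Δ₀ 2
        omega
      have h2D : 2 ≤ D := by
        have := le_max_right Δ₀ 2
        omega
      obtain ⟨T, H, hT, hPH, hle, hrest⟩ := hhalf D hΔ V R hdeg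
      let R' : SimpleGraph V :=
        { Adj := fun x y => R.Adj x y ∧ ∀ i, ¬ (H i).Adj x y
          symm := ⟨fun x y h => ⟨h.1.symm, fun i hi => h.2 i hi.symm⟩⟩
          loopless := ⟨fun x h => R.irrefl h.1⟩ }
      have hR' : ∀ v, dg R' v ≤ D / 2 := by
        intro v
        have h1 := hrest v
        have h2 : dg R' v = (univ.filter (fun y => R.Adj v y ∧ ∀ i, ¬ (H i).Adj v y)).card := by
          unfold dg
          congr 1
          ext y
          simp only [mem_filter, R']
        omega
      obtain ⟨q, H', hq, hPH', hiff⟩ := ih (D / 2) (by omega) V R' (by omega) hR'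
      refine ⟨T + q, Fin.append H H', ?_, ?_, ?_⟩
      · have h1 : ((D / 2 : ℕ) : ℝ) ^ α ≤ (D : ℝ) ^ α * ρ := by
          have h3 : ((D / 2 : ℕ) : ℝ) ≤ (D : ℝ) * (2 : ℝ)⁻¹ := by
            have := Nat.cast_div_le (α := ℝ) (m := D) (n := 2)
            rw [← div_eq_mul_inv]
            exact_mod_cast this
          calc ((D / 2 : ℕ) : ℝ) ^ α ≤ ((D : ℝ) * (2 : ℝ)⁻¹) ^ α :=
                Real.rpow_le_rpow (Nat.cast_nonneg _) h3 hα0.le
            _ = (D : ℝ) ^ α * ρ := by
                rw [Real.mul_rpow (by positivity) (by positivity), Real.inv_rpow (by norm_num),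
                  ← Real.rpow_neg (by norm_num)]
        have h2 : C * ((D / 2 : ℕ) : ℝ) ^ α ≤ C * ((D : ℝ) ^ α * ρ) :=
          mul_le_mul_of_nonneg_left h1 hC0
        have h3 : 0 ≤ (D : ℝ) ^ α := by positivity
        have h4 : K * (D : ℝ) ^ α ≤ C * (1 - ρ) * (D : ℝ) ^ α := mul_le_mul_of_nonneg_right hC2 h3
        push_cast
        linarith
      · intro i
        refine Fin.addCases (fun j => ?_) (fun j => ?_) i
        · rw [Fin.append_left]
          exact hPH j
        · rw [Fin.append_right]
          exact hPH' j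
      · intro x y
        constructor
        · intro hxy
          by_cases h : ∃ i, (H i).Adj x y
          · obtain ⟨i, hi⟩ := h
            exact ⟨Fin.castAdd q i, by rw [Fin.append_left]; exact hi⟩
          · obtain ⟨i, hi⟩ := (hiff x y).1 ⟨hxy, fun i hi => h ⟨i, hi⟩⟩
            exact ⟨Fin.natAdd T i, by rw [Fin.append_right]; exact hi⟩
        · rintro ⟨i, hi⟩
          revert hi
          refine Fin.addCases (fun j => ?_) (fun j => ?_) i
          · rw [Fin.append_left]
            exact fun hi => hle j hi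
          · rw [Fin.append_right]
            exact fun hi => ((hiff x y).2 ⟨j, hi⟩).1

end Pool.Agent.H35.RD
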