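import Pool.Agent.H35.RD.Stm

/-!
# Probability that an edge is kept
-/

set_option autoImplicit false
set_option linter.unusedSectionVars false

open Finset
open scoped Classical

namespace Pool.Agent.H35.RD

section
variable {V W : Type} [Fintype V] [Fintype W]

/-- functions with given values at `k` points -/
theorem keep_card_fun_inj {k : ℕ} (u : Fin k → V) (hu : Function.Injective u)
    (Q : (Fin k → W) → Prop) :
    (univ.filter (fun φ : V → W => Q (fun i => φ (u i)))).card * (Fintype.card W) ^ k =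
      (univ.filter Q).card * (Fintype.card W) ^ Fintype.card V := by
  let e1 : (V → W) ≃ ({v // v ∈ Set.range u} → W) × ({v // ¬ v ∈ Set.range u} → W) :=
    Equiv.piEquivPiSubtypeProd (fun v => v ∈ Set.range u) (fun _ => W)
  let e2 : ({v // v ∈ Set.range u} → W) ≃ (Fin k → W) :=
    Equiv.arrowCongr (Equiv.ofInjective u hu).symm (Equiv.refl _)
  let e : (V → W) ≃ (Fin k → W) × ({v // ¬ v ∈ Set.range u} → W) :=
    e1.trans (Equiv.prodCongr e2 (Equiv.refl _))
  have he : ∀ φ : V → W, (e φ).1 = fun i => φ (u i) := by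
    intro φ
    rfl
  have h1 : (univ.filter (fun φ : V → W => Q (fun i => φ (u i)))).card =
      ((univ.filter Q) ×ˢ (univ : Finset ({v // ¬ v ∈ Set.range u} → W))).card := by
    refine Finset.card_equiv e ?_
    intro φ
    rw [mem_filter, mem_product, mem_filter, he]
    simp
  have hc : Fintype.card {v // ¬ v ∈ Set.range u} + k = Fintype.card V := by
    have h2 := Fintype.card_subtype_compl (fun v => v ∈ Set.range u)
    have h3 : Fintype.card {v // v ∈ Set.range u} = k :=
      (Fintype.card_congr (Equiv.ofInjective u hu)).symm.trans (Fintype.card_fin k)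
    have h4 : Fintype.card {v // v ∈ Set.range u} ≤ Fintype.card V := Fintype.card_subtype_le _
    omega
  rw [h1, card_product, Finset.card_univ, Fintype.card_fun, mul_assoc, ← pow_add, hc]

theorem keep_card_two (x y : V) (hxy : x ≠ y) (R : W → W → Prop) :
    (univ.filter (fun φ : V → W => R (φ x) (φ y))).card * (Fintype.card W) ^ 2 =
      (univ.filter (fun z : W × W => R z.1 z.2)).card *
        (Fintype.card W) ^ Fintype.card V := by
  have h1 := keep_card_fun_inj (W := W) ![x, y] (by
    intro i j hij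
    fin_cases i <;> fin_cases j <;> simp_all) (fun g => R (g 0) (g 1))
  simp only [Matrix.cons_val_zero, Matrix.cons_val_one] at h1
  rw [h1]
  congr 1
  refine Finset.card_equiv (finTwoArrowEquiv W) ?_
  intro g
  simp

theorem keep_card_three (x y z : V) (hxy : x ≠ y) (hxz : x ≠ z) (hyz : y ≠ z)
    (R : W → W → Prop) :
    (univ.filter (fun φ : V → W => R (φ x) (φ y) ∧ φ z = φ y)).card * (Fintype.card W) ^ 3 =
      (univ.filter (fun z : W × W => R z.1 z.2)).card *
        (Fintype.card W) ^ Fintype.card V := by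
  have h1 := keep_card_fun_inj (W := W) ![x, y, z] (by
    intro i j hij
    fin_cases i <;> fin_cases j <;> simp_all) (fun g => R (g 0) (g 1) ∧ g 2 = g 1)
  simp only [Matrix.cons_val_zero, Matrix.cons_val_one, Matrix.cons_val] at h1
  rw [h1]
  congr 1
  refine Finset.card_bij (fun g _ => (g 0, g 1)) ?_ ?_ ?_
  · intro g hg
    simp only [mem_filter, mem_univ, true_and] at hg ⊢
    exact hg.1
  · intro g hg g' hg' hgg
    simp only [mem_filter, mem_univ, true_and] at hg hg'
    have h2 := congrArg Prod.fst hgg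
    have h3 := congrArg Prod.snd hgg
    simp only at h2 h3
    funext i
    fin_cases i
    · exact h2
    · exact h3
    · show g 2 = g' 2
      rw [hg.2, hg'.2, h3]
  · rintro ⟨a, b⟩ h
    simp only [mem_filter, mem_univ, true_and] at h
    exact ⟨![a, b, b], by simpa using h, by simp⟩

end

theorem s_keep : S_KEEP := by
  intro V W _ _ R G Δ hΔ h4 x y hxy
  set M := Fintype.card W with hM
  set n := Fintype.card V with hn
  have hne : x ≠ y := hxy.ne
  have hd1 : 1 ≤ dg R x := by
    unfold dg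
    rw [Nat.succ_le_iff, Finset.card_pos]
    exact ⟨y, by simpa using hxy⟩
  have hΔ1 : 1 ≤ Δ := hd1.trans (hΔ x)
  have hM0 : 0 < M := by omega
  have hMr : (0 : ℝ) < (M : ℝ) := by exact_mod_cast hM0
  -- the events
  let A : Finset (V → W) := univ.filter (fun φ => G.Adj (φ x) (φ y))
  let K : Finset (V → W) := univ.filter (fun φ => (pb R G φ).Adj x y)
  let N1 : Finset V := univ.filter (fun y' => R.Adj x y' ∧ y' ≠ y)
  let N2 : Finset V := univ.filter (fun x' => R.Adj y x' ∧ x' ≠ x)
  let B1 : V → Finset (V → W) := fun y' =>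
    univ.filter (fun φ => G.Adj (φ x) (φ y) ∧ φ y' = φ y)
  let B2 : V → Finset (V → W) := fun x' =>
    univ.filter (fun φ => G.Adj (φ x) (φ y) ∧ φ x' = φ x)
  have hA : A.card * M ^ 2 = prs G * M ^ n := keep_card_two x y hne (fun a b => G.Adj a b)
  have hB1 : ∀ y' ∈ N1, (B1 y').card * M ^ 3 = prs G * M ^ n := by
    intro y' hy'
    have h := (mem_filter.1 hy').2
    exact keep_card_three x y y' hne h.1.ne (fun h2 => h.2 h2.symm) (fun a b => G.Adj a b)
  have hB2 : ∀ x' ∈ N2, (B2 x').card * M ^ 3 = prs G * M ^ n := by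
    intro x' hx'
    have h := (mem_filter.1 hx').2
    have h3 := keep_card_three (W := W) y x x' hne.symm h.1.ne (fun h2 => h.2 h2.symm)
      (fun a b => G.Adj a b)
    have h4 : (univ.filter (fun φ : V → W => G.Adj (φ y) (φ x) ∧ φ x' = φ x)) = B2 x' := by
      ext φ
      simp only [mem_filter, mem_univ, true_and, B2, G.adj_comm]
    rw [h4] at h3
    exact h3
  have hsub : A ⊆ K ∪ (N1.biUnion B1 ∪ N2.biUnion B2) := by
    intro φ hφ
    have hφ' : G.Adj (φ x) (φ y) := (mem_filter.1 hφ).2
    by_cases hk : φ ∈ K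
    · exact mem_union_left _ hk
    · refine mem_union_right _ ?_
      have hk' : ¬ (pb R G φ).Adj x y := fun h => hk (by simp only [K, mem_filter, mem_univ, true_and]; exact h)
      by_cases h1 : ∃ y', R.Adj x y' ∧ φ y' = φ y ∧ y' ≠ y
      · obtain ⟨y', h1, h2, h3⟩ := h1
        refine mem_union_left _ (mem_biUnion.2 ⟨y', ?_, ?_⟩)
        · simp only [N1, mem_filter, mem_univ, true_and]
          exact ⟨h1, h3⟩
        · simp only [B1, mem_filter, mem_univ, true_and]
          exact ⟨hφ', h2⟩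
      · by_cases h5 : ∃ x', R.Adj y x' ∧ φ x' = φ x ∧ x' ≠ x
        · obtain ⟨x', h5, h6, h7⟩ := h5
          refine mem_union_right _ (mem_biUnion.2 ⟨x', ?_, ?_⟩)
          · simp only [N2, mem_filter, mem_univ, true_and]
            exact ⟨h5, h7⟩
          · simp only [B2, mem_filter, mem_univ, true_and]
            exact ⟨hφ', h6⟩
        · exfalso
          apply hk'
          refine ⟨hxy, hφ', ?_, ?_⟩
          · intro y' ha hb
            by_contra hc
            exact h1 ⟨y', ha, hb, hc⟩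
          · intro x' ha hb
            by_contra hc
            exact h5 ⟨x', ha, hb, hc⟩
  have hN1 : N1.card ≤ Δ := by
    refine (Finset.card_le_card ?_).trans (hΔ x)
    intro z hz
    have := (mem_filter.1 hz).2
    simpa using this.1
  have hN2 : N2.card ≤ Δ := by
    refine (Finset.card_le_card ?_).trans (hΔ y)
    intro z hz
    have := (mem_filter.1 hz).2
    simpa using this.1
  have hU1 : (N1.biUnion B1).card * M ^ 3 ≤ Δ * (prs G * M ^ n) := by
    calc (N1.biUnion B1).card * M ^ 3 ≤ (∑ y' ∈ N1, (B1 y').card) * M ^ 3 :=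
          Nat.mul_le_mul_right _ card_biUnion_le
      _ = ∑ y' ∈ N1, (B1 y').card * M ^ 3 := by rw [Finset.sum_mul]
      _ = ∑ y' ∈ N1, prs G * M ^ n := Finset.sum_congr rfl hB1
      _ = N1.card * (prs G * M ^ n) := by rw [Finset.sum_const, smul_eq_mul]
      _ ≤ Δ * (prs G * M ^ n) := Nat.mul_le_mul_right _ hN1
  have hU2 : (N2.biUnion B2).card * M ^ 3 ≤ Δ * (prs G * M ^ n) := by
    calc (N2.biUnion B2).card * M ^ 3 ≤ (∑ y' ∈ N2, (B2 y').card) * M ^ 3 :=
          Nat.mul_le_mul_right _ card_biUnion_le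
      _ = ∑ y' ∈ N2, (B2 y').card * M ^ 3 := by rw [Finset.sum_mul]
      _ = ∑ y' ∈ N2, prs G * M ^ n := Finset.sum_congr rfl hB2
      _ = N2.card * (prs G * M ^ n) := by rw [Finset.sum_const, smul_eq_mul]
      _ ≤ Δ * (prs G * M ^ n) := Nat.mul_le_mul_right _ hN2
  have hA3 : A.card * M ^ 3 ≤ K.card * M ^ 3 + 2 * Δ * (prs G * M ^ n) := by
    have h1 : A.card ≤ K.card + ((N1.biUnion B1).card + (N2.biUnion B2).card) :=
      (Finset.card_le_card hsub).trans ((card_union_le _ _).trans
        (Nat.add_le_add_left (card_union_le _ _) _))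
    have h2 := Nat.mul_le_mul_right (M ^ 3) h1
    rw [add_mul, add_mul] at h2
    linarith
  have hA4 : M * (prs G * M ^ n) ≤ K.card * M ^ 3 + 2 * Δ * (prs G * M ^ n) := by
    have : M * (prs G * M ^ n) = A.card * M ^ 3 := by rw [← hA]; ring
    rw [this]
    exact hA3
  have hfin : M * (prs G * M ^ n) ≤ 2 * (K.card * M ^ 3) := by
    have h5 : 4 * Δ * (prs G * M ^ n) ≤ M * (prs G * M ^ n) := Nat.mul_le_mul_right _ h4
    linarith
  have hreal : (M : ℝ) * ((prs G : ℝ) * (M : ℝ) ^ n) ≤ 2 * ((K.card : ℝ) * (M : ℝ) ^ 3) := by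
    exact_mod_cast hfin
  have hcard : (Fintype.card (V → W) : ℝ) = (M : ℝ) ^ n := by
    rw [Fintype.card_fun]
    push_cast
    rfl
  rw [hcard]
  show (prs G : ℝ) / (2 * (M : ℝ) ^ 2) * (M : ℝ) ^ n ≤ (K.card : ℝ)
  rw [div_mul_eq_mul_div, div_le_iff₀ (by positivity)]
  have h6 : (M : ℝ) * ((prs G : ℝ) * (M : ℝ) ^ n) ≤ (M : ℝ) * ((K.card : ℝ) * (2 * (M : ℝ) ^ 2)) := by
    calc (M : ℝ) * ((prs G : ℝ) * (M : ℝ) ^ n) ≤ 2 * ((K.card : ℝ) * (M : ℝ) ^ 3) := hreal
      _ = (M : ℝ) * ((K.card : ℝ) * (2 * (M : ℝ) ^ 2)) := by ring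
  exact le_of_mul_le_mul_left h6 hMr

end Pool.Agent.H35.RD
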