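import Pool.Agent.H35.RD.Stm

/-! # Project RD, stub RD-KST (helper82) -/

set_option autoImplicit false
set_option linter.unusedSectionVars false

open Finset
open scoped Classical

namespace Pool.Agent.H35.RD

theorem kst : S_KST := by
  intro s t hs ht
  refine ⟨?_, ?_⟩
  · intro V W _ _ H G f hf hG hcon
    apply hG
    obtain ⟨c⟩ := hcon
    have hadj : ∀ i j, H.Adj (c (Sum.inl i)) (c (Sum.inr j)) := fun i j =>
      c.toHom.map_adj (by simp)
    have hinj : Function.Injective (c : Fin s ⊕ Fin t → V) := c.injective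
    refine ⟨⟨⟨fun a => f (c a), ?_⟩, ?_⟩⟩
    · intro a b hab
      exact hf.1 _ _ (c.toHom.map_adj hab)
    · intro a b hab
      change f (c a) = f (c b) at hab
      rcases a with i | j <;> rcases b with i' | j'
      · have h1 := hf.2 (c (Sum.inr ⟨0, by omega⟩)) _ _ (hadj i ⟨0, by omega⟩).symm
          (hadj i' ⟨0, by omega⟩).symm hab
        exact hinj h1
      · exfalso
        have h1 := hf.1 _ _ (hadj i j')
        rw [hab] at h1
        exact G.irrefl h1
      · exfalso
        have h1 := hf.1 _ _ (hadj i' j)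
        rw [hab] at h1
        exact G.irrefl h1
      · have h1 := hf.2 (c (Sum.inl ⟨0, by omega⟩)) _ _ (hadj ⟨0, by omega⟩ j)
          (hadj ⟨0, by omega⟩ j') hab
        exact hinj h1
  · intro n H hH hcon
    obtain ⟨c⟩ := hcon
    have hadj : ∀ i j, H.Adj (c (Sum.inl i)) (c (Sum.inr j)) := fun i j =>
      c.toHom.map_adj (by simp)
    have hinj : Function.Injective (c : Fin s ⊕ Fin t → Fin n) := c.injective
    have hab : ∀ a a' b b' : Fin n, a ≠ a' → b ≠ b' → H.Adj a b → H.Adj a b' → H.Adj a' b →
        H.Adj a' b' → False := by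
      intro a a' b b' h1 h2 h3 h4 h5 h6
      have key : ∀ x y y' : Fin n, y ≠ y' → H.Adj x y → H.Adj x y' → y < x ∨ y' < x := by
        intro x y y' hne g1 g2
        by_contra hc
        push Not at hc
        exact hne (hH x y y' (lt_of_le_of_ne hc.1 g1.ne) (lt_of_le_of_ne hc.2 g2.ne) g1 g2)
      have k1 := key a b b' h2 h3 h4
      have k2 := key a' b b' h2 h5 h6
      have k3 := key b a a' h1 h3.symm h5.symm
      have k4 := key b' a a' h1 h4.symm h6.symm
      omega
    refine hab (c (Sum.inl ⟨0, by omega⟩)) (c (Sum.inl ⟨1, by omega⟩)) (c (Sum.inr ⟨0, by omega⟩))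
      (c (Sum.inr ⟨1, by omega⟩)) ?_ ?_ (hadj _ _) (hadj _ _) (hadj _ _) (hadj _ _)
    · intro h
      have := hinj h
      simp at this
    · intro h
      have := hinj h
      simp at this

end Pool.Agent.H35.RD
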