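import Pool.Agent.H35.RD.Cyc

set_option autoImplicit false

open Finset
open scoped Classical

namespace Pool.Agent.H35.RD

theorem p8 : S_P8 := by
  constructor
  · rintro V W _ _ H G f hf ⟨g3, g4, g8⟩
    have key3 : ∀ a b c : W, G.Adj a b → G.Adj b c → G.Adj c a → False := by
      intro a b c h1 h2 h3
      apply g3
      apply cyc_mk_nat le_rfl (fun i => if i = 0 then a else if i = 1 then b else c)
      · intro u v huv hv
        interval_cases v <;> interval_cases u <;>
          simp [h1.ne, h2.ne, h3.ne']
      · intro i hi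
        have : i < 2 := by omega
        interval_cases i <;> simp [h1, h2]
      · simp [h3]
    have key4 : ∀ a b c d : W, a ≠ c → b ≠ d → G.Adj a b → G.Adj b c → G.Adj c d → G.Adj d a →
        False := by
      intro a b c d hac hbd h1 h2 h3 h4
      apply g4
      apply cyc_mk_nat (by omega) (fun i => if i = 0 then a else if i = 1 then b else
        if i = 2 then c else d)
      · intro u v huv hv
        interval_cases v <;> interval_cases u <;>
          simp [h1.ne, h2.ne, h3.ne, h4.ne', hac, hbd]
      · intro i hi
        have : i < 3 := by omega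
        interval_cases i <;> simp [h1, h2, h3]
      · simp [h4]
    refine ⟨?_, ?_, ?_⟩
    · intro hc
      obtain ⟨x, hinj, hadj⟩ := cyc_el hc
      exact key3 _ _ _ (hf.1 _ _ (hadj 0)) (hf.1 _ _ (hadj 1)) (hf.1 _ _ (hadj 2))
    · intro hc
      obtain ⟨x, hinj, hadj⟩ := cyc_el (n := 1) hc
      refine key4 (f (x 0)) (f (x 1)) (f (x 2)) (f (x 3)) ?_ ?_ (hf.1 _ _ (hadj 0))
        (hf.1 _ _ (hadj 1)) (hf.1 _ _ (hadj 2)) (hf.1 _ _ (hadj 3))
      · intro h
        have := hinj (hf.2 _ _ _ (hadj 0).symm (hadj 1) h)
        exact absurd this (by decide)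
      · intro h
        have := hinj (hf.2 _ _ _ (hadj 1).symm (hadj 2) h)
        exact absurd this (by decide)
    · intro hc
      obtain ⟨x, hinj, hadj⟩ := cyc_el (n := 5) hc
      have a1 : ∀ i : Fin 8, G.Adj (f (x i)) (f (x (i + 1))) := fun i => hf.1 _ _ (hadj i)
      have n2 : ∀ i : Fin 8, f (x i) ≠ f (x (i + 2)) := by
        intro i h
        have e : i + 1 + 1 = i + 2 := by rw [add_assoc]; rfl
        have h2 := hadj (i + 1)
        rw [e] at h2
        have := hinj (hf.2 _ _ _ (hadj i).symm h2 h)
        exact (by decide : ∀ i : Fin 8, i ≠ i + 2) i this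
      have n3 : ∀ i : Fin 8, f (x i) ≠ f (x (i + 3)) := by
        intro i h
        have e1 : i + 1 + 1 = i + 2 := by rw [add_assoc]; rfl
        have e2 : i + 2 + 1 = i + 3 := by rw [add_assoc]; rfl
        have h1 := a1 i
        have h2 := a1 (i + 1)
        have h3 := a1 (i + 2)
        rw [e1] at h2
        rw [e2, ← h] at h3
        exact key3 _ _ _ h1 h2 h3
      have n4 : ∀ i : Fin 8, f (x i) ≠ f (x (i + 4)) := by
        intro i h
        have e1 : i + 1 + 1 = i + 2 := by rw [add_assoc]; rfl
        have e2 : i + 2 + 1 = i + 3 := by rw [add_assoc]; rfl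
        have e3 : i + 3 + 1 = i + 4 := by rw [add_assoc]; rfl
        have e4 : i + 1 + 2 = i + 3 := by rw [add_assoc]; rfl
        have h1 := a1 i
        have h2 := a1 (i + 1)
        have h3 := a1 (i + 2)
        have h4 := a1 (i + 3)
        rw [e1] at h2
        rw [e2] at h3
        rw [e3, ← h] at h4
        have m := n2 (i + 1)
        rw [e4] at m
        exact key4 _ _ _ _ (n2 i) m h1 h2 h3 h4
      apply g8
      apply cyc_mk (n := 5) (fun i => f (x i)) _ a1
      intro i i' h
      by_contra hne
      have hd : ∀ i i' : Fin 8, i ≠ i' → (i' = i + 1 ∨ i' = i + 2 ∨ i' = i + 3 ∨ i' = i + 4 ∨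
        i = i' + 1 ∨ i = i' + 2 ∨ i = i' + 3) := by decide
      simp only at h
      rcases hd i i' hne with e | e | e | e | e | e | e
      · rw [e] at h
        exact (a1 i).ne h
      · rw [e] at h
        exact n2 i h
      · rw [e] at h
        exact n3 i h
      · rw [e] at h
        exact n4 i h
      · rw [e] at h
        exact (a1 i').ne h.symm
      · rw [e] at h
        exact n2 i' h.symm
      · rw [e] at h
        exact n3 i' h.symm
  · intro n H h
    exact ⟨forest_free H h 0, forest_free H h 1, forest_free H h 5⟩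

end Pool.Agent.H35.RD
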