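import Pool.Agent.H35.RD.Stm

/-! # Project RD, stub RD-POT (helper82) -/

set_option autoImplicit false
set_option linter.unusedSectionVars false

open Finset
open scoped Classical

namespace Pool.Agent.H35.RD

lemma exp_neg_le_half {z : ℝ} (h0 : 0 ≤ z) (h1 : z ≤ 1) : Real.exp (-z) ≤ 1 - z / 2 := by
  have h2 := Real.add_one_le_exp z
  have h3 : Real.exp (-z) * Real.exp z = 1 := by rw [← Real.exp_add]; simp
  have h4 := Real.exp_pos (-z)
  have h5 : Real.exp (-z) * (z + 1) ≤ 1 := by
    calc Real.exp (-z) * (z + 1) ≤ Real.exp (-z) * Real.exp z := mul_le_mul_of_nonneg_left h2 h4.le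
      _ = 1 := h3
  have h6 : 0 ≤ z * (1 - z) := mul_nonneg h0 (by linarith)
  have h7 : Real.exp (-z) * (z + 1) ≤ (1 - z / 2) * (z + 1) := by nlinarith
  exact le_of_mul_le_mul_right h7 (by linarith)

lemma kept_le {V W : Type} [Fintype V] [Fintype W] (R : SimpleGraph V) (G : SimpleGraph W)
    (φ : V → W) (x : V) (N : Finset V) :
    (N.filter (fun y => (pb R G φ).Adj x y)).card ≤ dg G (φ x) := by
  unfold dg
  refine Finset.card_le_card_of_injOn φ ?_ ?_
  · intro y hy
    rw [Finset.mem_coe, Finset.mem_filter] at hy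
    rw [Finset.mem_coe, Finset.mem_filter]
    exact ⟨Finset.mem_univ _, hy.2.2.1⟩
  · intro y hy y' hy' h
    rw [Finset.mem_coe, Finset.mem_filter] at hy hy'
    exact hy'.2.2.2.1 y hy.2.1 h

theorem pot : S_POT := by
  intro V W _ _ R G L p hL hp0 hp1 hp x T
  induction T with
  | zero =>
    intro N _ θ _ _
    have h1 : (N.filter (fun y => ∀ i : Fin 0, ¬ (pb R G ((fun i => Fin.elim0 i : Fin 0 → V → W) i)).Adj x y)) = N := by
      apply Finset.filter_true_of_mem
      intro y _ i
      exact i.elim0
    rw [Fintype.sum_eq_single (fun i => Fin.elim0 i : Fin 0 → V → W)]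
    · rw [h1]
      simp
    · intro Φ hΦ
      exact absurd (Subsingleton.elim _ _) hΦ
  | succ T ih =>
    intro N hN θ hθ hθL
    set t : ℝ := θ * (1 - p / 2) ^ T with ht
    have hq0 : 0 ≤ 1 - p / 2 := by linarith
    have hq1 : 1 - p / 2 ≤ 1 := by linarith
    have ht0 : 0 ≤ t := mul_nonneg hθ (pow_nonneg hq0 T)
    have htθ : t ≤ θ := mul_le_of_le_one_right hθ (pow_le_one₀ hq0 hq1)
    have hLnn : (0 : ℝ) ≤ L := Nat.cast_nonneg L
    have htL : t * L ≤ 1 := (mul_le_mul_of_nonneg_right htθ hLnn).trans hθL
    set c : ℝ := (Fintype.card (V → W) : ℝ) with hc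
    have hc0 : 0 ≤ c := Nat.cast_nonneg _
    let X : (V → W) → ℕ := fun φ => (N.filter (fun y => (pb R G φ).Adj x y)).card
    have hXL : ∀ φ, (X φ : ℝ) ≤ L := fun φ => by
      exact_mod_cast (kept_le R G φ x N).trans (hL _)
    have hXN : ∀ φ, X φ ≤ N.card := fun φ => Finset.card_filter_le _ _
    have hsumX : p * N.card * c ≤ ∑ φ, (X φ : ℝ) := by
      have h1 : ∑ φ, (X φ : ℝ) = ∑ y ∈ N, ((univ.filter (fun φ : V → W => (pb R G φ).Adj x y)).card : ℝ) := by
        have h2 : ∀ φ : V → W, (X φ : ℝ) = ∑ y ∈ N, if (pb R G φ).Adj x y then (1 : ℝ) else 0 := by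
          intro φ
          simp only [X]
          rw [Finset.card_filter]
          push_cast
          rfl
        have h3 : ∀ y : V, ((univ.filter (fun φ : V → W => (pb R G φ).Adj x y)).card : ℝ) =
            ∑ φ : V → W, if (pb R G φ).Adj x y then (1 : ℝ) else 0 := by
          intro y
          rw [Finset.card_filter]
          push_cast
          rfl
        rw [Finset.sum_congr rfl (fun φ _ => h2 φ), Finset.sum_comm]
        exact Finset.sum_congr rfl (fun y _ => (h3 y).symm)
      rw [h1]
      calc p * N.card * c = ∑ _y ∈ N, p * c := by rw [Finset.sum_const, nsmul_eq_mul]; ring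
        _ ≤ _ := Finset.sum_le_sum fun y hy => hp x y (hN y hy)
    -- the sum over the first map
    have hstep : ∀ φ : V → W,
        ∑ Φ : Fin T → V → W, Real.exp (θ *
          (N.filter (fun y => ∀ i, ¬ (pb R G ((Fin.cons φ Φ : Fin (T + 1) → V → W) i)).Adj x y)).card) ≤
        c ^ T * (Real.exp (t * N.card) * (1 - t * X φ / 2)) := by
      intro φ
      have h1 : ∀ Φ : Fin T → V → W,
          N.filter (fun y => ∀ i, ¬ (pb R G ((Fin.cons φ Φ : Fin (T + 1) → V → W) i)).Adj x y) =
          (N.filter (fun y => ¬ (pb R G φ).Adj x y)).filter (fun y => ∀ i, ¬ (pb R G (Φ i)).Adj x y) := by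
        intro Φ
        rw [Finset.filter_filter]
        apply Finset.filter_congr
        intro y _
        rw [Fin.forall_fin_succ]
        simp only [Fin.cons_zero, Fin.cons_succ]
      have h2 := ih (N.filter (fun y => ¬ (pb R G φ).Adj x y))
        (fun y hy => hN y (Finset.mem_filter.1 hy).1) θ hθ hθL
      have h3 : ((N.filter (fun y => ¬ (pb R G φ).Adj x y)).card : ℝ) = N.card - X φ := by
        have h4 := Finset.card_filter_add_card_filter_not (s := N) (fun y => (pb R G φ).Adj x y)
        have h5 : X φ + (N.filter (fun y => ¬ (pb R G φ).Adj x y)).card = N.card := h4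
        have h6 : (X φ : ℝ) + ((N.filter (fun y => ¬ (pb R G φ).Adj x y)).card : ℝ) = N.card := by
          exact_mod_cast h5
        linarith
      calc _ = ∑ Φ : Fin T → V → W, Real.exp (θ *
            ((N.filter (fun y => ¬ (pb R G φ).Adj x y)).filter
              (fun y => ∀ i, ¬ (pb R G (Φ i)).Adj x y)).card) := by
            apply Finset.sum_congr rfl
            intro Φ _
            rw [h1 Φ]
        _ ≤ c ^ T * Real.exp (θ * (1 - p / 2) ^ T *
            (N.filter (fun y => ¬ (pb R G φ).Adj x y)).card) := h2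
        _ = c ^ T * (Real.exp (t * N.card) * Real.exp (-(t * X φ))) := by
            rw [h3, ← Real.exp_add, ← ht]
            congr 2
            ring
        _ ≤ _ := by
            refine mul_le_mul_of_nonneg_left ?_ (pow_nonneg hc0 T)
            refine mul_le_mul_of_nonneg_left ?_ (Real.exp_pos _).le
            refine exp_neg_le_half (mul_nonneg ht0 (Nat.cast_nonneg _)) ?_
            exact (mul_le_mul_of_nonneg_left (hXL φ) ht0).trans htL
    have hsplit : ∑ Φ : Fin (T + 1) → V → W,
          Real.exp (θ * (N.filter (fun y => ∀ i, ¬ (pb R G (Φ i)).Adj x y)).card) =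
        ∑ φ : V → W, ∑ Φ : Fin T → V → W, Real.exp (θ *
          (N.filter (fun y => ∀ i, ¬ (pb R G ((Fin.cons φ Φ : Fin (T + 1) → V → W) i)).Adj x y)).card) := by
      rw [← (Fin.consEquiv (fun _ : Fin (T + 1) => V → W)).sum_comp, Fintype.sum_prod_type]
      rfl
    rw [hsplit]
    calc _ ≤ ∑ φ : V → W, c ^ T * (Real.exp (t * N.card) * (1 - t * X φ / 2)) :=
          Finset.sum_le_sum fun φ _ => hstep φ
      _ = c ^ T * (Real.exp (t * N.card) * (c - t / 2 * ∑ φ, (X φ : ℝ))) := by
          rw [← Finset.mul_sum, ← Finset.mul_sum]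
          congr 2
          rw [Finset.sum_sub_distrib, Finset.mul_sum]
          congr 1
          · rw [Finset.sum_const, nsmul_eq_mul, mul_one]
            rfl
          · apply Finset.sum_congr rfl
            intro φ _
            ring
      _ ≤ c ^ T * (Real.exp (t * N.card) * (c * Real.exp (-(t * p * N.card / 2)))) := by
          refine mul_le_mul_of_nonneg_left ?_ (pow_nonneg hc0 T)
          refine mul_le_mul_of_nonneg_left ?_ (Real.exp_pos _).le
          have h1 : t / 2 * (p * N.card * c) ≤ t / 2 * ∑ φ, (X φ : ℝ) :=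
            mul_le_mul_of_nonneg_left hsumX (by linarith)
          have h2 : 1 - t * p * N.card / 2 ≤ Real.exp (-(t * p * N.card / 2)) := by
            have := Real.add_one_le_exp (-(t * p * N.card / 2))
            linarith
          have h3 := mul_le_mul_of_nonneg_left h2 hc0
          nlinarith
      _ = c ^ (T + 1) * Real.exp (θ * (1 - p / 2) ^ (T + 1) * N.card) := by
          have h1 : θ * (1 - p / 2) ^ (T + 1) * N.card = t * N.card + -(t * p * N.card / 2) := by
            rw [ht, pow_succ]
            ring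
          rw [h1, Real.exp_add, pow_succ]
          ring

end Pool.Agent.H35.RD
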