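import Pool.Agent.H35.RD.Stm

/-! # Project RD, stub RD-SPL (helper82) -/

set_option autoImplicit false
set_option linter.unusedSectionVars false

open Finset
open scoped Classical

namespace Pool.Agent.H35.RD

section
variable {V : Type} [Fintype V]

/-- the number of the neighbours of `v` which are smaller than `w` -/
noncomputable def rk (G : SimpleGraph V) (v w : V) : ℕ :=
  (univ.filter (fun u => G.Adj v u ∧ Fintype.equivFin V u < Fintype.equivFin V w)).card

lemma rk_lt (G : SimpleGraph V) {v w : V} (h : G.Adj v w) : rk G v w < dg G v := by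
  unfold rk dg
  apply Finset.card_lt_card
  rw [Finset.ssubset_iff_of_subset]
  · refine ⟨w, ?_, ?_⟩
    · exact Finset.mem_filter.2 ⟨Finset.mem_univ _, h⟩
    · intro h1
      exact lt_irrefl _ (Finset.mem_filter.1 h1).2.2
  · intro u hu
    rw [Finset.mem_filter] at hu ⊢
    exact ⟨hu.1, hu.2.1⟩

lemma rk_mono (G : SimpleGraph V) {v w w' : V} (h : G.Adj v w)
    (hlt : Fintype.equivFin V w < Fintype.equivFin V w') : rk G v w < rk G v w' := by
  unfold rk
  apply Finset.card_lt_card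
  rw [Finset.ssubset_iff_of_subset]
  · refine ⟨w, ?_, ?_⟩
    · exact Finset.mem_filter.2 ⟨Finset.mem_univ _, h, hlt⟩
    · intro h1
      exact lt_irrefl _ (Finset.mem_filter.1 h1).2.2
  · intro u hu
    rw [Finset.mem_filter] at hu ⊢
    exact ⟨hu.1, hu.2.1, hu.2.2.trans hlt⟩

lemma rk_inj (G : SimpleGraph V) {v w w' : V} (h : G.Adj v w) (h' : G.Adj v w')
    (he : rk G v w = rk G v w') : w = w' := by
  rcases lt_trichotomy (Fintype.equivFin V w) (Fintype.equivFin V w') with hlt | heq | hlt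
  · exact absurd he (rk_mono G h hlt).ne
  · exact (Fintype.equivFin V).injective heq
  · exact absurd he (rk_mono G h' hlt).ne'

/-- the vertices of the split graph -/
abbrev SW (G : SimpleGraph V) (l : ℕ) : Type := Σ v : V, Fin (dg G v / l + 1)

/-- the split graph -/
def SG (G : SimpleGraph V) (l : ℕ) : SimpleGraph (SW G l) where
  Adj a b := G.Adj a.1 b.1 ∧ (a.2 : ℕ) = rk G a.1 b.1 / l ∧ (b.2 : ℕ) = rk G b.1 a.1 / l
  symm := ⟨fun _ _ h => ⟨h.1.symm, h.2.2, h.2.1⟩⟩
  loopless := ⟨fun _ h => G.irrefl h.1⟩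

lemma sum_dg (G : SimpleGraph V) : ∑ v, dg G v = prs G := by
  unfold dg prs
  rw [← Finset.card_sigma]
  refine Finset.card_bij (fun a _ => (a.1, a.2)) ?_ ?_ ?_
  · intro a ha
    rw [Finset.mem_sigma, Finset.mem_filter] at ha
    exact Finset.mem_filter.2 ⟨Finset.mem_univ _, ha.2.2⟩
  · intro a _ b _ h
    rw [Prod.mk.injEq] at h
    exact Sigma.ext h.1 (heq_of_eq h.2)
  · intro z hz
    rw [Finset.mem_filter] at hz
    exact ⟨⟨z.1, z.2⟩, Finset.mem_sigma.2 ⟨Finset.mem_univ _, Finset.mem_filter.2 ⟨Finset.mem_univ _, hz.2⟩⟩, rfl⟩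

lemma prs_SG (G : SimpleGraph V) (l : ℕ) : prs (SG G l) = prs G := by
  unfold prs
  refine Finset.card_bij (fun z _ => (z.1.1, z.2.1)) ?_ ?_ ?_
  · intro z hz
    rw [Finset.mem_filter] at hz ⊢
    exact ⟨Finset.mem_univ _, hz.2.1⟩
  · rintro ⟨⟨v, i⟩, ⟨w, j⟩⟩ hz ⟨⟨v', i'⟩, ⟨w', j'⟩⟩ hz' h
    rw [Finset.mem_filter] at hz hz'
    rw [Prod.mk.injEq] at h
    obtain ⟨h1, h2⟩ := h
    simp only at h1 h2
    subst h1
    subst h2
    have hi : i = i' := Fin.ext (hz.2.2.1.trans hz'.2.2.1.symm)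
    have hj : j = j' := Fin.ext (hz.2.2.2.trans hz'.2.2.2.symm)
    rw [hi, hj]
  · rintro ⟨v, w⟩ hz
    rw [Finset.mem_filter] at hz
    have hvw : G.Adj v w := hz.2
    refine ⟨(⟨v, ⟨rk G v w / l, ?_⟩⟩, ⟨w, ⟨rk G w v / l, ?_⟩⟩), ?_, rfl⟩
    · exact Nat.lt_succ_of_le (Nat.div_le_div_right (rk_lt G hvw).le)
    · exact Nat.lt_succ_of_le (Nat.div_le_div_right (rk_lt G hvw.symm).le)
    · exact Finset.mem_filter.2 ⟨Finset.mem_univ _, hvw, rfl, rfl⟩

lemma dg_SG (G : SimpleGraph V) {l : ℕ} (hl : 1 ≤ l) (a : SW G l) : dg (SG G l) a ≤ l := by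
  unfold dg
  calc _ ≤ (Finset.Ico ((a.2 : ℕ) * l) ((a.2 : ℕ) * l + l)).card := by
        refine Finset.card_le_card_of_injOn (fun b => rk G a.1 b.1) ?_ ?_
        · intro b hb
          rw [Finset.mem_coe, Finset.mem_filter] at hb
          rw [Finset.mem_coe, Finset.mem_Ico]
          have h1 : (a.2 : ℕ) = rk G a.1 b.1 / l := hb.2.2.1
          have h2 := Nat.div_add_mod (rk G a.1 b.1) l
          have h3 := Nat.mod_lt (rk G a.1 b.1) (show l > 0 by omega)
          rw [← h1, mul_comm] at h2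
          change (a.2 : ℕ) * l ≤ rk G a.1 b.1 ∧ rk G a.1 b.1 < (a.2 : ℕ) * l + l
          constructor
          · exact h2 ▸ Nat.le_add_right _ _
          · calc rk G a.1 b.1 = (a.2 : ℕ) * l + rk G a.1 b.1 % l := h2.symm
              _ < (a.2 : ℕ) * l + l := Nat.add_lt_add_left h3 _
        · rintro ⟨w, j⟩ hb ⟨w', j'⟩ hb' h
          rw [Finset.mem_coe, Finset.mem_filter] at hb hb'
          have h1 : w = w' := rk_inj G hb.2.1 hb'.2.1 h
          subst h1
          have hj : j = j' := Fin.ext (hb.2.2.2.trans hb'.2.2.2.symm)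
          rw [hj]
    _ = l := by simp

end

theorem spl : S_SPL := by
  intro P hP V _ G hG l hl
  refine ⟨SW G l, inferInstance, SG G l, ?_, ?_, ?_, prs_SG G l, fun w => dg_SG G hl w⟩
  · refine hP.pull (SW G l) V (SG G l) G (fun a => a.1) ⟨fun a b h => h.1, ?_⟩ hG
    rintro ⟨v, i⟩ ⟨w, j⟩ ⟨w', j'⟩ h h' he
    simp only at he
    subst he
    have hj : j = j' := Fin.ext (h.2.2.trans h'.2.2.symm)
    rw [hj]
  · rw [Fintype.card_sigma, Finset.sum_mul, ← sum_dg]
    calc ∑ v, Fintype.card (Fin (dg G v / l + 1)) * l ≤ ∑ v, (l + dg G v) := by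
          apply Finset.sum_le_sum
          intro v _
          rw [Fintype.card_fin, add_mul, one_mul]
          have := Nat.div_mul_le_self (dg G v) l
          omega
      _ = Fintype.card V * l + ∑ v, dg G v := by
          rw [Finset.sum_add_distrib, Finset.sum_const, Finset.card_univ, smul_eq_mul]
  · rw [Fintype.card_sigma]
    calc Fintype.card V = ∑ _v : V, 1 := by simp
      _ ≤ _ := by
          apply Finset.sum_le_sum
          intro v _
          rw [Fintype.card_fin]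
          exact Nat.le_add_left 1 _

end Pool.Agent.H35.RD
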