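import Pool.Agent.H35.RD.Stm
import Pool.Agent.H20.RM.LLL

/-!
# Stub RD-STEP: halving the degree by the local lemma
-/

set_option autoImplicit false

open Finset
open scoped Classical

namespace Pool.Agent.H35.RD

namespace Step

variable {V W : Type} [Fintype V]

/-- the closed neighbourhood -/
noncomputable def nb (R : SimpleGraph V) (x : V) : Finset V :=
  insert x (univ.filter (fun y => R.Adj x y))

lemma mem_nb {R : SimpleGraph V} {x y : V} : y ∈ nb R x ↔ y = x ∨ R.Adj x y := by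
  rw [nb, mem_insert, mem_filter]
  simp

lemma nb_comm {R : SimpleGraph V} {x y : V} : y ∈ nb R x ↔ x ∈ nb R y := by
  rw [mem_nb, mem_nb, R.adj_comm, eq_comm]

lemma card_nb {R : SimpleGraph V} {Δ : ℕ} (h : ∀ v, dg R v ≤ Δ) (x : V) :
    (nb R x).card ≤ 1 + Δ := by
  have h1 := h x
  unfold dg at h1
  have h2 := card_insert_le x (univ.filter (fun y => R.Adj x y))
  unfold nb
  omega

/-- the ball of radius two -/
noncomputable def ball (R : SimpleGraph V) (x : V) : Finset V := (nb R x).biUnion (nb R)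

lemma mem_ball {R : SimpleGraph V} {x z : V} : z ∈ ball R x ↔ ∃ y ∈ nb R x, z ∈ nb R y := by
  rw [ball, mem_biUnion]

lemma ball_comm {R : SimpleGraph V} {x y : V} : y ∈ ball R x ↔ x ∈ ball R y := by
  rw [mem_ball, mem_ball]
  constructor
  · rintro ⟨z, h1, h2⟩
    exact ⟨z, nb_comm.1 h2, nb_comm.1 h1⟩
  · rintro ⟨z, h1, h2⟩
    exact ⟨z, nb_comm.1 h2, nb_comm.1 h1⟩

lemma card_ball {R : SimpleGraph V} {Δ : ℕ} (h : ∀ v, dg R v ≤ Δ) (x : V) :
    (ball R x).card ≤ (1 + Δ) ^ 2 := by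
  refine card_biUnion_le.trans ?_
  refine (sum_le_card_nsmul _ _ (1 + Δ) fun y _ => card_nb h y).trans ?_
  rw [smul_eq_mul, sq]
  exact Nat.mul_le_mul_right _ (card_nb h x)

lemma card_meet {R : SimpleGraph V} {Δ : ℕ} (h : ∀ v, dg R v ≤ Δ) (x : V) :
    (univ.filter (fun y => ¬ Disjoint (ball R x) (ball R y))).card ≤ (1 + Δ) ^ 4 := by
  have h1 : univ.filter (fun y => ¬ Disjoint (ball R x) (ball R y)) ⊆
      (ball R x).biUnion (ball R) := by
    intro y hy
    rw [mem_filter, not_disjoint_iff] at hy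
    obtain ⟨-, z, hz1, hz2⟩ := hy
    rw [mem_biUnion]
    exact ⟨z, hz1, ball_comm.1 hz2⟩
  refine (card_le_card h1).trans (card_biUnion_le.trans ?_)
  refine (sum_le_card_nsmul _ _ ((1 + Δ) ^ 2) fun y _ => card_ball h y).trans ?_
  rw [smul_eq_mul]
  calc (ball R x).card * (1 + Δ) ^ 2 ≤ (1 + Δ) ^ 2 * (1 + Δ) ^ 2 :=
        Nat.mul_le_mul_right _ (card_ball h x)
    _ = (1 + Δ) ^ 4 := by ring

variable [Fintype W]

/-- the remaining degree -/
noncomputable def rm {T : ℕ} (R : SimpleGraph V) (G : SimpleGraph W) (Φ : Fin T → V → W) (x : V) :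
    ℕ :=
  (univ.filter (fun y => R.Adj x y ∧ ∀ i, ¬ (pb R G (Φ i)).Adj x y)).card

omit [Fintype W] in
lemma pb_of {R : SimpleGraph V} {G : SimpleGraph W} {φ φ' : V → W} {x y : V}
    (e : ∀ t ∈ ball R x, φ t = φ' t) (h : (pb R G φ).Adj x y) : (pb R G φ').Adj x y := by
  obtain ⟨hR, hG, h1, h2⟩ := h
  have ex : φ x = φ' x := e x (mem_ball.2 ⟨x, mem_nb.2 (Or.inl rfl), mem_nb.2 (Or.inl rfl)⟩)
  have ey : φ y = φ' y := e y (mem_ball.2 ⟨y, mem_nb.2 (Or.inr hR), mem_nb.2 (Or.inl rfl)⟩)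
  refine ⟨hR, ?_, fun y' hy' he => h1 y' hy' ?_, fun x' hx' he => h2 x' hx' ?_⟩
  · rw [← ex, ← ey]
    exact hG
  · rw [ey, ← he]
    exact e y' (mem_ball.2 ⟨y', mem_nb.2 (Or.inr hy'), mem_nb.2 (Or.inl rfl)⟩)
  · rw [ex, ← he]
    exact e x' (mem_ball.2 ⟨y, mem_nb.2 (Or.inr hR), mem_nb.2 (Or.inr hx')⟩)

lemma rm_congr {T : ℕ} {R : SimpleGraph V} {G : SimpleGraph W} {Φ Φ' : Fin T → V → W} {x : V}
    (e : ∀ t ∈ ball R x, ∀ i, Φ i t = Φ' i t) : rm R G Φ x = rm R G Φ' x := by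
  unfold rm
  congr 1
  ext y
  rw [mem_filter, mem_filter]
  refine and_congr_right fun _ => and_congr_right fun _ => forall_congr' fun i => not_congr ⟨?_, ?_⟩
  · exact pb_of fun t ht => e t ht i
  · exact pb_of fun t ht => (e t ht i).symm

open Pool.Agent.H20.RM.LLL in
lemma prob (hpot : S_POT) {R : SimpleGraph V} {G : SimpleGraph W} {Δ L T : ℕ} {p : ℝ}
    (hR : ∀ v, dg R v ≤ Δ) (hG : ∀ w, dg G w ≤ L) (hL : 1 ≤ L) (hp : 0 < p) (hp1 : p ≤ 1)
    (hK : ∀ x y, R.Adj x y → p * (Fintype.card (V → W) : ℝ) ≤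
      (univ.filter (fun φ : V → W => (pb R G φ).Adj x y)).card)
    (hT : (1 - p / 2) ^ T ≤ 1 / 4) (x : V) :
    (cnt (fun ω : V → Fin T → W => Δ < 2 * rm R G (fun i v => ω v i) x) : ℝ) ≤
      Real.exp (-((Δ : ℝ) / (4 * L))) * Fintype.card (V → Fin T → W) := by
  have hL0 : (0 : ℝ) < L := by exact_mod_cast hL
  have h1 := hpot V W R G L p hG hp hp1 hK x T (univ.filter (fun y => R.Adj x y))
    (fun y hy => (mem_filter.1 hy).2) (1 / L) (by positivity) (by field_simp; exact le_refl _)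
  have h2 : ∀ Φ : Fin T → V → W, ((univ.filter (fun y => R.Adj x y)).filter
      (fun y => ∀ i, ¬ (pb R G (Φ i)).Adj x y)).card = rm R G Φ x := by
    intro Φ
    rw [filter_filter, rm]
  have h3 : ((univ.filter (fun Φ : Fin T → V → W => Δ < 2 * rm R G Φ x)).card : ℝ) *
      Real.exp ((Δ : ℝ) / (2 * L)) ≤
      ∑ Φ : Fin T → V → W, Real.exp (1 / L * ((univ.filter (fun y => R.Adj x y)).filter
        (fun y => ∀ i, ¬ (pb R G (Φ i)).Adj x y)).card) := by
    rw [← nsmul_eq_mul, ← sum_const]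
    refine (sum_le_sum (fun Φ hΦ => ?_)).trans
      (sum_le_sum_of_subset_of_nonneg (filter_subset _ _) fun Φ _ _ => (Real.exp_pos _).le)
    rw [Real.exp_le_exp, h2 Φ]
    have h4 : Δ < 2 * rm R G Φ x := (mem_filter.1 hΦ).2
    have h5 : (Δ : ℝ) ≤ 2 * rm R G Φ x := by exact_mod_cast h4.le
    rw [div_le_iff₀ (by positivity)]
    calc (Δ : ℝ) ≤ 2 * rm R G Φ x := h5
      _ = 1 / L * rm R G Φ x * (2 * L) := by field_simp
  have h6 : ((univ.filter (fun y => R.Adj x y)).card : ℝ) ≤ Δ := by exact_mod_cast hR x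
  have h7 : Real.exp (1 / (L : ℝ) * (1 - p / 2) ^ T * (univ.filter (fun y => R.Adj x y)).card) ≤
      Real.exp ((Δ : ℝ) / (4 * L)) := by
    rw [Real.exp_le_exp]
    have h8 : (0 : ℝ) ≤ (1 - p / 2) ^ T := pow_nonneg (by linarith) T
    calc 1 / (L : ℝ) * (1 - p / 2) ^ T * (univ.filter (fun y => R.Adj x y)).card ≤
        1 / (L : ℝ) * (1 / 4) * Δ := by gcongr
      _ = (Δ : ℝ) / (4 * L) := by field_simp
  have h9 : cnt (fun ω : V → Fin T → W => Δ < 2 * rm R G (fun i v => ω v i) x) =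
      (univ.filter (fun Φ : Fin T → V → W => Δ < 2 * rm R G Φ x)).card := by
    unfold cnt ev
    refine Finset.card_equiv (Equiv.piComm fun (_ : V) (_ : Fin T) => W) ?_
    intro ω
    simp only [mem_filter, mem_univ, true_and]
    exact Iff.rfl
  have h10 : (Fintype.card (V → Fin T → W) : ℝ) = (Fintype.card (V → W) : ℝ) ^ T := by
    have h11 : Fintype.card (V → Fin T → W) = Fintype.card (Fin T → V → W) :=
      Fintype.card_congr (Equiv.piComm fun (_ : V) (_ : Fin T) => W)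
    rw [h11, Fintype.card_fun, Fintype.card_fin]
    push_cast
    rfl
  rw [h9, h10]
  have h12 : ((univ.filter (fun Φ : Fin T → V → W => Δ < 2 * rm R G Φ x)).card : ℝ) *
      Real.exp ((Δ : ℝ) / (2 * L)) ≤
      (Fintype.card (V → W) : ℝ) ^ T * Real.exp ((Δ : ℝ) / (4 * L)) :=
    h3.trans (h1.trans (mul_le_mul_of_nonneg_left h7 (by positivity)))
  have h13 : Real.exp ((Δ : ℝ) / (4 * L)) =
      Real.exp (-((Δ : ℝ) / (4 * L))) * Real.exp ((Δ : ℝ) / (2 * L)) := by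
    rw [← Real.exp_add]
    congr 1
    field_simp
    ring
  rw [h13, ← mul_assoc] at h12
  have h14 := le_of_mul_le_mul_right h12 (Real.exp_pos _)
  rw [mul_comm (Real.exp _)]
  exact h14

end Step

open Step Pool.Agent.H20.RM.LLL in
theorem step : S_POT → S_STEP := by
  intro hpot V W _ _ R G Δ L T p hR hG hL hp hp1 hW hK hT hE
  have hne : 0 < Fintype.card (V → Fin T → W) := by
    have : Nonempty W := Fintype.card_pos_iff.1 hW
    exact Fintype.card_pos
  obtain ⟨ω, hω⟩ := lll (ι := V) univ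
    (fun x (ω : V → Fin T → W) => Δ < 2 * rm R G (fun i v => ω v i) x) (ball R) (by
      intro x _ ω ω' he h
      have h1 : rm R G (fun i v => ω v i) x = rm R G (fun i v => ω' v i) x :=
        rm_congr fun t ht i => by rw [he t ht]
      rw [← h1]
      exact h) (Real.exp (-((Δ : ℝ) / (4 * L)))) ((1 + Δ) ^ 4) (Real.exp_pos _).le
    (fun x _ => prob hpot hR hG hL hp hp1 hK hT x) (fun x _ => card_meet hR x)
    (by push_cast; exact hE) (Nat.one_le_pow _ _ (by omega)) hne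
  refine ⟨fun i v => ω v i, fun x => ?_⟩
  have h1 := hω x (mem_univ x)
  rw [not_lt] at h1
  exact h1

end Pool.Agent.H35.RD
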