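import Pool.Agent.H35.RD.Fin
import Pool.Agent.H35.RD.IND
import Pool.Agent.H35.RD.C4R
import Pool.Agent.H35.RD.BIP
import Pool.Agent.H35.RD.D8
import Pool.Agent.H35.RD.P8
import Pool.Agent.H35.RD.SPL
import Pool.Agent.H35.RD.KEEP
import Pool.Agent.H35.RD.POT
import Pool.Agent.H35.RD.STEP
import Pool.Agent.H35.RD.FOR
import Pool.Agent.H35.RD.ITER
import Pool.Agent.H35.RD.CONV
import Pool.Agent.H35.RD.GIR
import Pool.Agent.H35.RD.KST

/-!
# The equivalences, without hypotheses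
-/

set_option autoImplicit false

namespace Pool.Agent.H35.RD

theorem s_iter : S_ITER := iter (half spl s_keep (step pot)) fors

theorem class_tfae (P : ∀ V : Type, SimpleGraph V → Prop) (hP : Cls P) (α : ℝ) (hα0 : 0 < α)
    (hα1 : α < 1) : List.TFAE [Dense P α, DecM P α, DecK P α, RamM P α] :=
  cls_tfae s_iter con1 con2 con3 P hP α hα0 hα1

theorem eight_tfae (α : ℝ) (hα0 : 0 < α) (hα1 : α < 1) :
    List.TFAE [(∃ c : ℝ, 0 < c ∧ ∃ N : ℕ, ∀ n : ℕ, N ≤ n → c * (n : ℝ) ^ (2 - α) ≤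
        ((SimpleGraph.extremalNumber n (SimpleGraph.cycleGraph 8) : ℕ) : ℝ)),
      DecM P8 α,
      DecK (fun _ G => (SimpleGraph.cycleGraph 8).Free G) α,
      RamM (fun _ G => (SimpleGraph.cycleGraph 8).Free G) α] :=
  c8_tfae (d8 (c4r ind) bip) p8 s_iter con1 con2 con3 α hα0 hα1

theorem dense_iff (P : ∀ V : Type, SimpleGraph V → Prop) (α : ℝ) : Dense P α ↔
    ∃ c : ℝ, 0 < c ∧ ∃ N : ℕ, ∀ n : ℕ, N ≤ n → ∃ G : SimpleGraph (Fin n), P (Fin n) G ∧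
      c * (n : ℝ) ^ (2 - α) ≤ (G.edgeSet.ncard : ℝ) := by
  classical
  have hprs : ∀ (n : ℕ) (G : SimpleGraph (Fin n)), (prs G : ℝ) = 2 * (G.edgeSet.ncard : ℝ) := by
    intro n G
    rw [prs_eq, ← SimpleGraph.coe_edgeFinset, Set.ncard_coe_finset]
    push_cast
    rfl
  constructor
  · rintro ⟨c, hc, N, h⟩
    refine ⟨c / 2, by positivity, N, fun n hn => ?_⟩
    obtain ⟨G, h1, h2⟩ := h n hn
    rw [hprs] at h2
    exact ⟨G, h1, by linarith⟩
  · rintro ⟨c, hc, N, h⟩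
    refine ⟨c, hc, N, fun n hn => ?_⟩
    obtain ⟨G, h1, h2⟩ := h n hn
    refine ⟨G, h1, ?_⟩
    rw [hprs]
    have : (0 : ℝ) ≤ G.edgeSet.ncard := Nat.cast_nonneg _
    linarith

end Pool.Agent.H35.RD
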