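import Pool.Agent.H35.RD.Stm

/-!
# The cost of halving the maximum degree
-/

set_option autoImplicit false
set_option linter.unusedSectionVars false

open Finset Filter Topology
open scoped Classical

namespace Pool.Agent.H35.RD

theorem sum_dg_eq {V : Type} [Fintype V] (G : SimpleGraph V) : ∑ v, dg G v = prs G := by
  unfold dg prs
  have h := Finset.card_eq_sum_card_fiberwise (s := univ.filter (fun z : V × V => G.Adj z.1 z.2))
    (t := univ) (f := Prod.fst) (fun _ _ => mem_univ _)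
  rw [h]
  refine Finset.sum_congr rfl fun v _ => ?_
  refine Finset.card_bij (fun w _ => (v, w)) ?_ ?_ ?_
  · intro w hw
    simpa using hw
  · intro w _ w' _ h
    exact (Prod.mk.inj h).2
  · rintro ⟨a, b⟩ hb
    simp only [mem_filter, mem_univ, true_and] at hb
    obtain ⟨h1, rfl⟩ := hb
    exact ⟨b, by simpa using h1, rfl⟩

theorem dg_eq_degree {V : Type} [Fintype V] (G : SimpleGraph V) [DecidableRel G.Adj] (v : V) :
    dg G v = G.degree v := by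
  rw [dg, ← SimpleGraph.card_neighborFinset_eq_degree]
  congr 1
  ext w
  simp

theorem prs_eq {V : Type} [Fintype V] (G : SimpleGraph V) [DecidableRel G.Adj] :
    prs G = 2 * #G.edgeFinset := by
  rw [← G.sum_degrees_eq_twice_card_edges, ← sum_dg_eq]
  exact Finset.sum_congr rfl fun v _ => dg_eq_degree G v

/-- a subgraph with about `a` ordered pairs -/
theorem exists_sub {V : Type} [Fintype V] (G : SimpleGraph V) (a : ℕ) (ha : a ≤ prs G) :
    ∃ G' : SimpleGraph V, G' ≤ G ∧ a ≤ prs G' ∧ prs G' ≤ a + 1 := by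
  rw [prs_eq] at ha
  obtain ⟨s, hs, hcard⟩ := Finset.exists_subset_card_eq (s := G.edgeFinset) (n := (a + 1) / 2)
    (by omega)
  have hsE : ∀ e ∈ s, e ∈ G.edgeSet := fun e he => SimpleGraph.mem_edgeFinset.1 (hs he)
  refine ⟨SimpleGraph.fromEdgeSet (s : Set (Sym2 V)), ?_, ?_⟩
  · intro x y hxy
    rw [SimpleGraph.fromEdgeSet_adj] at hxy
    exact hsE _ (by exact_mod_cast hxy.1)
  · have h1 : ∀ i : Fintype (SimpleGraph.fromEdgeSet (s : Set (Sym2 V))).edgeSet,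
        @SimpleGraph.edgeFinset _ (SimpleGraph.fromEdgeSet (s : Set (Sym2 V))) i = s := by
      intro i
      ext e
      rw [SimpleGraph.mem_edgeFinset, SimpleGraph.edgeSet_fromEdgeSet]
      constructor
      · intro h
        exact_mod_cast h.1
      · intro h
        exact ⟨by exact_mod_cast h, fun hd => G.not_isDiag_of_mem_edgeSet (hsE e h) hd⟩
    rw [prs_eq, h1, hcard]
    omega

theorem exp_cond (α : ℝ) (hα : 0 < α) : ∃ Δ₀ : ℕ, ∀ Δ : ℕ, Δ₀ ≤ Δ →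
    4 * Real.exp (-((Δ : ℝ) ^ α / 32)) * (1 + (Δ : ℝ)) ^ 4 ≤ 1 := by
  have h1 := tendsto_rpow_mul_exp_neg_mul_atTop_nhds_zero (4 / α) (1 / 32) (by norm_num)
  have h2 : Tendsto (fun Δ : ℕ => (Δ : ℝ) ^ α) atTop atTop :=
    (tendsto_rpow_atTop hα).comp tendsto_natCast_atTop_atTop
  have h3 := h1.comp h2
  have h4 : ∀ᶠ Δ : ℕ in atTop, ((Δ : ℝ) ^ α) ^ (4 / α) * Real.exp (-(1 / 32) * (Δ : ℝ) ^ α) < 1 / 64 :=
    h3.eventually (gt_mem_nhds (by norm_num))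
  obtain ⟨N, hN⟩ := eventually_atTop.1 h4
  refine ⟨max N 1, fun Δ hΔ => ?_⟩
  have hΔ1 : (1 : ℝ) ≤ Δ := by exact_mod_cast (le_max_right N 1).trans hΔ
  have h5 := hN Δ ((le_max_left N 1).trans hΔ)
  have h6 : ((Δ : ℝ) ^ α) ^ (4 / α) = (Δ : ℝ) ^ 4 := by
    rw [← Real.rpow_mul (by positivity), mul_div_cancel₀ _ hα.ne']
    exact_mod_cast Real.rpow_natCast (Δ : ℝ) 4
  rw [h6] at h5
  have h7 : (1 + (Δ : ℝ)) ^ 4 ≤ 16 * (Δ : ℝ) ^ 4 := by
    calc (1 + (Δ : ℝ)) ^ 4 ≤ (2 * (Δ : ℝ)) ^ 4 := by gcongr; linarith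
      _ = _ := by ring
  have h8 : Real.exp (-((Δ : ℝ) ^ α / 32)) = Real.exp (-(1 / 32) * (Δ : ℝ) ^ α) := by
    congr 1
    ring
  rw [h8]
  have h9 := Real.exp_pos (-(1 / 32) * (Δ : ℝ) ^ α)
  nlinarith

theorem locInj_pb {V W : Type} [Fintype V] [Fintype W] (R : SimpleGraph V) (G : SimpleGraph W)
    (φ : V → W) : LocInj (pb R G φ) G φ :=
  ⟨fun _ _ h => h.2.1, fun _ y _ h h' hf => h'.2.2.1 y h.1 hf⟩

theorem half (hSPL : S_SPL) (hKEEP : S_KEEP) (hSTEP : S_STEP) : S_HALF := by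
  intro P hP α hα0 hα1 ⟨c0, hc0, n₀, hden⟩
  set c : ℝ := min c0 1 with hc
  have hc_pos : 0 < c := lt_min hc0 one_pos
  have hc1 : c ≤ 1 := min_le_right _ _
  obtain ⟨Δ₁, hexp⟩ := exp_cond α hα0
  refine ⟨288 / c + 1, max (max Δ₁ n₀) 1, by positivity, fun Δ hΔ V _ R hdeg => ?_⟩
  have hΔ1 : 1 ≤ Δ := (le_max_right _ _).trans hΔ
  have hΔΔ₁ : Δ₁ ≤ Δ := (le_max_left _ _).trans ((le_max_left _ _).trans hΔ)
  have hΔn₀ : n₀ ≤ Δ := (le_max_right _ _).trans ((le_max_left _ _).trans hΔ)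
  have hΔ1' : (1 : ℝ) ≤ Δ := by exact_mod_cast hΔ1
  set n : ℕ := 4 * Δ with hn
  have hnR : (n : ℝ) = 4 * Δ := by rw [hn]; push_cast; ring
  have hn1 : (1 : ℝ) ≤ n := by rw [hnR]; linarith
  have hn0 : (0 : ℝ) < n := by linarith
  obtain ⟨G₀, hPG₀, hG₀⟩ := hden n (by omega)
  set a : ℕ := ⌈c * (n : ℝ) ^ (2 - α)⌉₊ with ha
  have ha1 : a ≤ prs G₀ := by
    refine Nat.ceil_le.2 (le_trans ?_ hG₀)
    exact mul_le_mul_of_nonneg_right (min_le_left _ _) (by positivity)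
  obtain ⟨G₁, hG₁, ha2, ha3⟩ := exists_sub G₀ a ha1
  have hPG₁ : P (Fin n) G₁ := hP.pull (Fin n) (Fin n) G₁ G₀ id
    ⟨fun x y h => hG₁ h, fun _ _ _ _ _ h => h⟩ hPG₀
  set l : ℕ := ⌈c * (n : ℝ) ^ (1 - α)⌉₊ with hl
  have hl1 : 1 ≤ l := Nat.one_le_ceil_iff.2 (by positivity)
  have hlR : c * (n : ℝ) ^ (1 - α) ≤ l := Nat.le_ceil _
  have hlR' : (l : ℝ) ≤ c * (n : ℝ) ^ (1 - α) + 1 := (Nat.ceil_lt_add_one (by positivity)).le
  obtain ⟨W, iW, G', hPG', hW1, hW2, hprs, hdg⟩ := hSPL P hP (Fin n) G₁ hPG₁ l hl1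
  rw [Fintype.card_fin] at hW1 hW2
  have hsplit : (n : ℝ) ^ (2 - α) = n * (n : ℝ) ^ (1 - α) := by
    rw [show (2 : ℝ) - α = 1 + (1 - α) by ring, Real.rpow_add hn0, Real.rpow_one]
  have hl1' : (1 : ℝ) ≤ l := by exact_mod_cast hl1
  have hprsle : (prs G₁ : ℝ) ≤ n * l + 2 := by
    have h1 : (prs G₁ : ℝ) ≤ a + 1 := by exact_mod_cast ha3
    have h2 : (a : ℝ) ≤ c * (n : ℝ) ^ (2 - α) + 1 := (Nat.ceil_lt_add_one (by positivity)).le
    rw [hsplit] at h2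
    nlinarith
  have hWR : (Fintype.card W : ℝ) ≤ 3 * n := by
    have h1 : (Fintype.card W : ℝ) * l ≤ n * l + prs G₁ := by exact_mod_cast hW1
    have h2 : (Fintype.card W : ℝ) * l ≤ 3 * n * l := by
      have : (4 : ℝ) ≤ n := by rw [hnR]; linarith
      nlinarith
    exact le_of_mul_le_mul_right h2 (by linarith)
  have hWn : (n : ℝ) ≤ Fintype.card W := by exact_mod_cast hW2
  have hW0 : 0 < Fintype.card W := by omega
  set p : ℝ := c / 18 * (n : ℝ) ^ (-α) with hp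
  have hp0 : 0 < p := by positivity
  have hp1 : p ≤ 1 := by
    have h1 : (n : ℝ) ^ (-α) ≤ 1 := Real.rpow_le_one_of_one_le_of_nonpos hn1 (by linarith)
    nlinarith [mul_le_mul_of_nonneg_left h1 (show 0 ≤ c / 18 by positivity)]
  have hkeep : ∀ x y, R.Adj x y → p * (Fintype.card (V → W) : ℝ) ≤
      (univ.filter (fun φ : V → W => (pb R G' φ).Adj x y)).card := by
    intro x y hxy
    refine le_trans (mul_le_mul_of_nonneg_right ?_ (Nat.cast_nonneg _))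
      (hKEEP V W R G' Δ hdeg (by omega) x y hxy)
    rw [le_div_iff₀ (by positivity), hp]
    have h1 : (Fintype.card W : ℝ) ^ 2 ≤ 9 * (n : ℝ) ^ 2 := by
      calc (Fintype.card W : ℝ) ^ 2 ≤ (3 * (n : ℝ)) ^ 2 := by gcongr
        _ = _ := by ring
    have h2 : c * (n : ℝ) ^ (2 - α) ≤ (prs G' : ℝ) := by
      rw [hprs]
      exact (Nat.le_ceil _).trans (by exact_mod_cast ha2)
    have h3 : (n : ℝ) ^ (-α) * (n : ℝ) ^ 2 = (n : ℝ) ^ (2 - α) := by
      rw [← Real.rpow_natCast, ← Real.rpow_add hn0]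
      congr 1
      push_cast
      ring
    calc c / 18 * (n : ℝ) ^ (-α) * (2 * (Fintype.card W : ℝ) ^ 2) ≤
        c / 18 * (n : ℝ) ^ (-α) * (2 * (9 * (n : ℝ) ^ 2)) := by gcongr
      _ = c * ((n : ℝ) ^ (-α) * (n : ℝ) ^ 2) := by ring
      _ = c * (n : ℝ) ^ (2 - α) := by rw [h3]
      _ ≤ _ := h2
  set T : ℕ := ⌈4 * Real.log 2 / p⌉₊ with hT
  have hlog0 : 0 < Real.log 2 := Real.log_pos (by norm_num)
  have hlog1 : Real.log 2 ≤ 1 := by
    have := Real.log_two_lt_d9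
    linarith
  have hTle : (T : ℝ) ≤ (288 / c + 1) * (Δ : ℝ) ^ α := by
    have h1 : (T : ℝ) ≤ 4 * Real.log 2 / p + 1 := (Nat.ceil_lt_add_one (by positivity)).le
    have h2 : 4 * Real.log 2 / p = 72 * Real.log 2 / c * (n : ℝ) ^ α := by
      rw [hp, Real.rpow_neg hn0.le]
      field_simp
      ring
    have h3 : (n : ℝ) ^ α ≤ 4 * (Δ : ℝ) ^ α := by
      rw [hnR, Real.mul_rpow (by norm_num) (by positivity)]
      refine mul_le_mul_of_nonneg_right ?_ (by positivity)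
      calc (4 : ℝ) ^ α ≤ (4 : ℝ) ^ (1 : ℝ) := Real.rpow_le_rpow_of_exponent_le (by norm_num) hα1.le
        _ = 4 := Real.rpow_one 4
    have h4 : (1 : ℝ) ≤ (Δ : ℝ) ^ α := Real.one_le_rpow hΔ1' hα0.le
    have h5 : 72 * Real.log 2 / c * (n : ℝ) ^ α ≤ 72 / c * (4 * (Δ : ℝ) ^ α) := by
      refine mul_le_mul ?_ h3 (by positivity) (by positivity)
      gcongr
      linarith
    calc (T : ℝ) ≤ 72 * Real.log 2 / c * (n : ℝ) ^ α + 1 := by rw [← h2]; exact h1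
      _ ≤ 72 / c * (4 * (Δ : ℝ) ^ α) + (Δ : ℝ) ^ α := add_le_add h5 h4
      _ = _ := by ring
  have hpow : (1 - p / 2) ^ T ≤ 1 / 4 := by
    have h1 : 1 - p / 2 ≤ Real.exp (-(p / 2)) := by
      have := Real.add_one_le_exp (-(p / 2))
      linarith
    have h2 : 4 * Real.log 2 / p ≤ T := Nat.le_ceil _
    have h3 : 4 * Real.log 2 ≤ T * p := by
      rwa [div_le_iff₀ hp0] at h2
    calc (1 - p / 2) ^ T ≤ Real.exp (-(p / 2)) ^ T := by
          refine pow_le_pow_left₀ (by linarith) h1 T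
      _ = Real.exp (-(T * p / 2)) := by
          rw [← Real.exp_nat_mul]
          congr 1
          ring
      _ ≤ Real.exp (-(2 * Real.log 2)) := by
          apply Real.exp_le_exp.2
          linarith
      _ = 1 / 4 := by
          rw [Real.exp_neg, show (2 : ℝ) * Real.log 2 = Real.log 2 + Real.log 2 by ring,
            Real.exp_add, Real.exp_log (by norm_num)]
          norm_num
  have hex : 4 * Real.exp (-((Δ : ℝ) / (4 * l))) * (1 + Δ) ^ 4 ≤ 1 := by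
    refine le_trans ?_ (hexp Δ hΔΔ₁)
    have h1 : (Δ : ℝ) ^ α / 32 ≤ (Δ : ℝ) / (4 * l) := by
      have h2 : (1 : ℝ) ≤ (n : ℝ) ^ (1 - α) := Real.one_le_rpow hn1 (by linarith)
      have h3 : (l : ℝ) ≤ 2 * (n : ℝ) ^ (1 - α) := by nlinarith
      have h4 : (n : ℝ) ^ (1 - α) ≤ 4 * (Δ : ℝ) ^ (1 - α) := by
        rw [hnR, Real.mul_rpow (by norm_num) (by positivity)]
        refine mul_le_mul_of_nonneg_right ?_ (by positivity)
        calc (4 : ℝ) ^ (1 - α) ≤ (4 : ℝ) ^ (1 : ℝ) :=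
              Real.rpow_le_rpow_of_exponent_le (by norm_num) (by linarith)
          _ = 4 := Real.rpow_one 4
      have h5 : (Δ : ℝ) ^ α * (Δ : ℝ) ^ (1 - α) = Δ := by
        rw [← Real.rpow_add (by linarith)]
        simp
      rw [div_le_div_iff₀ (by norm_num) (by positivity)]
      have h6 : 0 ≤ (Δ : ℝ) ^ α := by positivity
      calc (Δ : ℝ) ^ α * (4 * l) ≤ (Δ : ℝ) ^ α * (4 * (2 * (4 * (Δ : ℝ) ^ (1 - α)))) := by
            gcongr
            linarith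
        _ = (Δ : ℝ) ^ α * (Δ : ℝ) ^ (1 - α) * 32 := by ring
        _ = Δ * 32 := by rw [h5]
    gcongr
  obtain ⟨Φ, hΦ⟩ := hSTEP V W R G' Δ l T p hdeg hdg hl1 hp0 hp1 hW0 hkeep hpow hex
  exact ⟨T, fun i => pb R G' (Φ i), hTle, fun i => hP.pull V W _ G' (Φ i) (locInj_pb R G' (Φ i)) hPG',
    fun i x y h => h.1, fun x => hΦ x⟩

end Pool.Agent.H35.RD
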