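import Pool.Agent.H35.RD.Stm

set_option autoImplicit false

open Finset
open scoped Classical

namespace Pool.Agent.H35.RD

/-- cycles from cyclic sequences -/
theorem cyc_mk {V : Type} {G : SimpleGraph V} {n : ℕ} (x : Fin (n + 3) → V)
    (hinj : Function.Injective x) (hadj : ∀ i, G.Adj (x i) (x (i + 1))) :
    (SimpleGraph.cycleGraph (n + 3)).IsContained G := by
  refine ⟨⟨⟨x, ?_⟩, hinj⟩⟩
  intro a b hab
  rw [SimpleGraph.cycleGraph_adj] at hab
  rcases hab with h | h
  · have : a = b + 1 := by rw [← h]; abel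
    subst this
    exact (hadj b).symm
  · have : b = a + 1 := by rw [← h]; abel
    subst this
    exact hadj a

/-- cyclic sequences from cycles -/
theorem cyc_el {V : Type} {G : SimpleGraph V} {n : ℕ}
    (h : (SimpleGraph.cycleGraph (n + 3)).IsContained G) :
    ∃ x : Fin (n + 3) → V, Function.Injective x ∧ ∀ i, G.Adj (x i) (x (i + 1)) := by
  obtain ⟨f⟩ := h
  refine ⟨f.toHom, f.injective', fun i => ?_⟩
  apply f.toHom.map_rel
  rw [SimpleGraph.cycleGraph_adj]
  right
  abel

/-- cycles from sequences indexed by natural numbers -/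
theorem cyc_mk_nat {V : Type} {G : SimpleGraph V} {j : ℕ} (hj : 3 ≤ j) (x : ℕ → V)
    (hinj : ∀ a b, a < b → b < j → x a ≠ x b) (hadj : ∀ i, i + 1 < j → G.Adj (x i) (x (i + 1)))
    (hlast : G.Adj (x (j - 1)) (x 0)) :
    (SimpleGraph.cycleGraph j).IsContained G := by
  obtain ⟨n, rfl⟩ : ∃ n, j = n + 3 := ⟨j - 3, by omega⟩
  apply cyc_mk (fun i : Fin (n + 3) => x i.val)
  · intro a b hab
    rcases lt_trichotomy a.val b.val with h | h | h
    · exact absurd hab (hinj _ _ h b.isLt)
    · exact Fin.ext h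
    · exact absurd hab.symm (hinj _ _ h a.isLt)
  · intro i
    by_cases hi : i = Fin.last (n + 2)
    · subst hi
      simpa using hlast
    · have hlt : i.val < n + 2 := by
        have := i.isLt
        have h2 : i.val ≠ n + 2 := fun h => hi (Fin.ext h)
        omega
      have : (i + 1).val = i.val + 1 := Fin.val_add_one_of_lt (Fin.lt_last_iff_ne_last.mpr hi)
      rw [this]
      exact hadj i.val (by omega)

/-- sequences indexed by natural numbers from cycles -/
theorem cyc_el_nat {V : Type} {G : SimpleGraph V} {j : ℕ} (hj : 3 ≤ j)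
    (h : (SimpleGraph.cycleGraph j).IsContained G) :
    ∃ x : ℕ → V, (∀ a b, a < b → b < j → x a ≠ x b) ∧
      (∀ i, i + 1 < j → G.Adj (x i) (x (i + 1))) ∧ G.Adj (x (j - 1)) (x 0) := by
  obtain ⟨n, rfl⟩ : ∃ n, j = n + 3 := ⟨j - 3, by omega⟩
  obtain ⟨x, hinj, hadj⟩ := cyc_el h
  refine ⟨fun i => x (if hi : i < n + 3 then ⟨i, hi⟩ else 0), ?_, ?_, ?_⟩
  · intro a b hab hb
    simp only [dif_pos hb, dif_pos (hab.trans hb)]
    intro h
    have := hinj h
    rw [Fin.mk.injEq] at this
    omega
  · intro i hi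
    simp only [dif_pos hi, dif_pos (Nat.lt_of_succ_lt hi)]
    have h1 := hadj ⟨i, Nat.lt_of_succ_lt hi⟩
    have h2 : (⟨i, Nat.lt_of_succ_lt hi⟩ : Fin (n + 3)) + 1 = ⟨i + 1, hi⟩ := by
      apply Fin.ext
      rw [Fin.val_add_one_of_lt]
      rw [Fin.lt_def]
      simp only [Fin.val_last]
      omega
    rw [h2] at h1
    exact h1
  · have h1 := hadj (Fin.last (n + 2))
    have h2 : (Fin.last (n + 2)) + 1 = (0 : Fin (n + 3)) := by
      simp
    rw [h2] at h1
    have e1 : n + 3 - 1 < n + 3 := by omega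
    have e2 : 0 < n + 3 := by omega
    simp only [dif_pos e1, dif_pos e2]
    exact h1

/-- forests have no cycles -/
theorem forest_free {n : ℕ} (H : SimpleGraph (Fin n))
    (h : ∀ x y y', x < y → x < y' → H.Adj x y → H.Adj x y' → y = y') (j : ℕ) :
    (SimpleGraph.cycleGraph (j + 3)).Free H := by
  intro hc
  obtain ⟨x, hinj, hadj⟩ := cyc_el hc
  obtain ⟨i, -, hi⟩ := Finset.exists_min_image (univ : Finset (Fin (j + 3))) x ⟨0, mem_univ _⟩
  have h1 : i + 1 ≠ i - 1 := by
    intro h
    have h2 : (1 : Fin (j + 3)) + 1 = 0 := by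
      have : i + 1 - (i - 1) = 0 := by rw [h]; abel
      rw [← this]; abel
    have h3 := congrArg Fin.val h2
    rw [Fin.val_add] at h3
    simp at h3
    rw [Nat.mod_eq_of_lt (by omega)] at h3
    omega
  have h2 : H.Adj (x i) (x (i - 1)) := by
    have := hadj (i - 1)
    rw [sub_add_cancel] at this
    exact this.symm
  have h3 := hadj i
  have h4 : x i < x (i - 1) := lt_of_le_of_ne (hi _ (mem_univ _)) h2.ne
  have h5 : x i < x (i + 1) := lt_of_le_of_ne (hi _ (mem_univ _)) h3.ne
  exact h1 (hinj (h _ _ _ h5 h4 h3 h2))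

/-- the shorter cycle -/
theorem short {V W : Type} {H : SimpleGraph V} {G : SimpleGraph W} {f : V → W}
    (hf : LocInj H G f) {j : ℕ} (hj : 3 ≤ j)
    (h : (SimpleGraph.cycleGraph j).IsContained H) :
    ∃ j', 3 ≤ j' ∧ j' ≤ j ∧ (SimpleGraph.cycleGraph j').IsContained G := by
  obtain ⟨x, hinj, hadj, hlast⟩ := cyc_el_nat hj h
  by_cases hc : ∃ d a, 0 < d ∧ a + d < j ∧ f (x a) = f (x (a + d))
  · obtain ⟨a, hd0, had, hfa⟩ := Nat.find_spec hc
    have hmin := fun m => Nat.find_min hc (m := m)
    generalize Nat.find hc = d at *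
    have hd3 : 3 ≤ d := by
      rcases Nat.lt_or_ge d 3 with h3 | h3
      · exfalso
        interval_cases d
        · exact (hf.1 _ _ (hadj a had)).ne hfa
        · have e1 := (hadj a (by omega)).symm
          have e2 := hadj (a + 1) (by omega)
          exact hinj a (a + 2) (by omega) had (hf.2 _ _ _ e1 e2 hfa)
      · exact h3
    refine ⟨d, hd3, by omega, ?_⟩
    apply cyc_mk_nat hd3 (fun i => f (x (a + i)))
    · intro u v huv hv heq
      apply hmin (v - u) (by omega)
      refine ⟨a + u, by omega, by omega, ?_⟩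
      have : a + u + (v - u) = a + v := by omega
      rw [this]
      exact heq
    · intro i hi
      exact hf.1 _ _ (hadj (a + i) (by omega))
    · have := hf.1 _ _ (hadj (a + (d - 1)) (by omega))
      have e : a + (d - 1) + 1 = a + d := by omega
      rw [e, ← hfa] at this
      exact this
  · refine ⟨j, hj, le_rfl, ?_⟩
    apply cyc_mk_nat hj (fun i => f (x i))
    · intro u v huv hv heq
      apply hc
      refine ⟨v - u, u, by omega, by omega, ?_⟩
      have : u + (v - u) = v := by omega
      rw [this]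
      exact heq
    · intro i hi
      exact hf.1 _ _ (hadj i hi)
    · exact hf.1 _ _ hlast

end Pool.Agent.H35.RD
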