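import Pool.Agent.H35.RD.Stm
import Pool.Agent.H35.RD.HALF

/-!
# The equivalences
-/

set_option autoImplicit false
set_option linter.unusedSectionVars false

open Finset
open scoped Classical

namespace Pool.Agent.H35.RD

/-- the statement about the degrees, with the degree of Mathlib -/
def DecM (P : ∀ V : Type, SimpleGraph V → Prop) (α : ℝ) : Prop :=
  ∃ C : ℝ, ∀ (D : ℕ) (V : Type) [Fintype V] (R : SimpleGraph V) [DecidableRel R.Adj], 1 ≤ D →
    (∀ v, R.degree v ≤ D) → ∃ (q : ℕ) (H : Fin q → SimpleGraph V), (q : ℝ) ≤ C * (D : ℝ) ^ α ∧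
      (∀ i, P V (H i)) ∧ ∀ x y, R.Adj x y ↔ ∃ i, (H i).Adj x y

theorem dec_iff (P : ∀ V : Type, SimpleGraph V → Prop) (α : ℝ) : Dec P α ↔ DecM P α := by
  constructor
  · rintro ⟨C, hC⟩
    refine ⟨C, fun D V _ R _ hD hdeg => hC D V R hD fun v => ?_⟩
    rw [dg_eq_degree]
    exact hdeg v
  · rintro ⟨C, hC⟩
    refine ⟨C, fun D V _ R hD hdeg => hC D V R hD fun v => ?_⟩
    have := hdeg v
    rwa [dg_eq_degree] at this

/-- colourings as families of graphs -/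
def RamM (P : ∀ V : Type, SimpleGraph V → Prop) (α : ℝ) : Prop :=
  ∃ c : ℝ, 0 < c ∧ ∀ q N : ℕ, 1 ≤ q → (N : ℝ) ≤ c * (q : ℝ) ^ (1 / α) →
    ∃ H : Fin q → SimpleGraph (Fin N), (∀ i, P (Fin N) (H i)) ∧
      ∀ x y, x ≠ y → ∃! i, (H i).Adj x y

theorem ram_iff (P : ∀ V : Type, SimpleGraph V → Prop) (α : ℝ) : Ram P α ↔ RamM P α := by
  constructor
  · rintro ⟨c, hc, h⟩
    refine ⟨c, hc, fun q N hq hN => ?_⟩
    obtain ⟨χ, hχ⟩ := h q N hq hN
    refine ⟨mono χ, hχ, fun x y hxy => ⟨χ s(x, y), ⟨hxy, rfl⟩, ?_⟩⟩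
    intro j hj
    exact hj.2.symm
  · rintro ⟨c, hc, h⟩
    refine ⟨c, hc, fun q N hq hN => ?_⟩
    obtain ⟨H, hH, huniq⟩ := h q N hq hN
    have hex : ∀ e : Sym2 (Fin N), ∃ j : Fin q, ∀ x y, e = s(x, y) → x ≠ y → (H j).Adj x y := by
      intro e
      induction e using Sym2.ind with
      | _ a b =>
        by_cases hab : a = b
        · refine ⟨⟨0, hq⟩, fun x y he hxy => ?_⟩
          rw [Sym2.eq_iff] at he
          rcases he with ⟨rfl, rfl⟩ | ⟨rfl, rfl⟩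
          · exact absurd hab hxy
          · exact absurd hab.symm hxy
        · obtain ⟨j, hj, -⟩ := huniq a b hab
          refine ⟨j, fun x y he _ => ?_⟩
          rw [Sym2.eq_iff] at he
          rcases he with ⟨rfl, rfl⟩ | ⟨rfl, rfl⟩
          · exact hj
          · exact hj.symm
    choose χ hχ using hex
    refine ⟨χ, fun i => ?_⟩
    have : mono χ i = H i := by
      ext x y
      constructor
      · rintro ⟨hxy, rfl⟩
        exact hχ _ x y rfl hxy
      · intro hxy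
        have hne : x ≠ y := (H i).ne_of_adj hxy
        exact ⟨hne, (huniq x y hne).unique (hχ _ x y rfl hne) hxy⟩
    rw [this]
    exact hH i

/-- the Turán number and the dense graphs without `F` -/
theorem ex_iff {U : Type} [Fintype U] (F : SimpleGraph U) (hF : F ≠ ⊥) (α : ℝ) :
    (∃ c : ℝ, 0 < c ∧ ∃ N : ℕ, ∀ n : ℕ, N ≤ n → c * (n : ℝ) ^ (2 - α) ≤
      ((SimpleGraph.extremalNumber n F : ℕ) : ℝ)) ↔ Dense (fun _ G => F.Free G) α := by
  constructor
  · rintro ⟨c, hc, N, h⟩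
    refine ⟨c, hc, N, fun n hn => ?_⟩
    obtain ⟨G, _, hG⟩ := SimpleGraph.exists_isExtremal_free (V := Fin n) hF
    refine ⟨G, hG.prop, (h n hn).trans ?_⟩
    have h1 : prs G = 2 * SimpleGraph.extremalNumber n F := by
      rw [prs_eq, SimpleGraph.card_edgeFinset_of_isExtremal_free hG, Fintype.card_fin]
    rw [h1]
    push_cast
    have : (0 : ℝ) ≤ SimpleGraph.extremalNumber n F := Nat.cast_nonneg _
    linarith
  · rintro ⟨c, hc, N, h⟩
    refine ⟨c / 2, by positivity, N, fun n hn => ?_⟩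
    obtain ⟨G, hG, hd⟩ := h n hn
    have h1 : prs G ≤ 2 * SimpleGraph.extremalNumber n F := by
      rw [prs_eq]
      have := SimpleGraph.card_edgeFinset_le_extremalNumber hG
      rw [Fintype.card_fin] at this
      omega
    have h2 : (prs G : ℝ) ≤ 2 * SimpleGraph.extremalNumber n F := by exact_mod_cast h1
    linarith

theorem Dense.mono {P Q : ∀ V : Type, SimpleGraph V → Prop} (h : ∀ V G, P V G → Q V G) {α : ℝ} :
    Dense P α → Dense Q α := by
  rintro ⟨c, hc, N, hd⟩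
  refine ⟨c, hc, N, fun n hn => ?_⟩
  obtain ⟨G, hG, h1⟩ := hd n hn
  exact ⟨G, h _ _ hG, h1⟩

theorem Dec.mono {P Q : ∀ V : Type, SimpleGraph V → Prop} (h : ∀ V G, P V G → Q V G) {α : ℝ} :
    Dec P α → Dec Q α := by
  rintro ⟨C, hd⟩
  refine ⟨C, fun D V _ R hD hdeg => ?_⟩
  obtain ⟨q, H, h1, h2, h3⟩ := hd D V R hD hdeg
  exact ⟨q, H, h1, fun i => h _ _ (h2 i), h3⟩

theorem free_mono {U V : Type} (F : SimpleGraph U) {G H : SimpleGraph V} (h : H ≤ G)
    (hG : F.Free G) : F.Free H := fun hc => hG (hc.mono_right h)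

theorem free_bot {U V : Type} (F : SimpleGraph U) {a b : U} (hF : F.Adj a b) :
    F.Free (⊥ : SimpleGraph V) := by
  rintro ⟨f⟩
  exact f.toHom.map_adj hF

theorem Cls.sub {P : ∀ V : Type, SimpleGraph V → Prop} (hP : Cls P) (n : ℕ)
    (G H : SimpleGraph (Fin n)) (h : H ≤ G) (hG : P (Fin n) G) : P (Fin n) H :=
  hP.pull (Fin n) (Fin n) H G id ⟨fun _ _ hxy => h hxy, fun _ _ _ _ _ he => he⟩ hG

theorem Cls.bot {P : ∀ V : Type, SimpleGraph V → Prop} (hP : Cls P) (n : ℕ) :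
    P (Fin n) ⊥ := hP.forest n ⊥ fun _ _ _ _ _ h => h.elim

/-- the equivalences for a class -/
theorem cls_tfae (hI : S_ITER) (h1 : S_CON1) (h2 : S_CON2) (h3 : S_CON3)
    (P : ∀ V : Type, SimpleGraph V → Prop) (hP : Cls P) (α : ℝ) (hα0 : 0 < α) (hα1 : α < 1) :
    List.TFAE [Dense P α, DecM P α, DecK P α, RamM P α] := by
  tfae_have 1 → 2 := fun h => (dec_iff P α).1 (hI P hP α hα0 hα1 h)
  tfae_have 2 → 3 := fun h => h1 P α hα0 ((dec_iff P α).2 h)
  tfae_have 3 → 4 := fun h => (ram_iff P α).1 (h2 P hP.sub hP.bot α hα0 h)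
  tfae_have 4 → 1 := fun h => h3 P α hα0 hα1 ((ram_iff P α).2 h)
  tfae_finish

/-- the equivalences for the cycle of length 8 -/
theorem c8_tfae (hD8 : S_D8) (hP8 : S_P8) (hI : S_ITER) (h1 : S_CON1) (h2 : S_CON2) (h3 : S_CON3)
    (α : ℝ) (hα0 : 0 < α) (hα1 : α < 1) :
    List.TFAE [(∃ c : ℝ, 0 < c ∧ ∃ N : ℕ, ∀ n : ℕ, N ≤ n → c * (n : ℝ) ^ (2 - α) ≤
        ((SimpleGraph.extremalNumber n (SimpleGraph.cycleGraph 8) : ℕ) : ℝ)),
      DecM P8 α,
      DecK (fun _ G => (SimpleGraph.cycleGraph 8).Free G) α,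
      RamM (fun _ G => (SimpleGraph.cycleGraph 8).Free G) α] := by
  have hadj : (SimpleGraph.cycleGraph 8).Adj 0 1 := by
    rw [SimpleGraph.cycleGraph_adj]
    decide
  have hne : SimpleGraph.cycleGraph 8 ≠ ⊥ := by
    intro h
    rw [h] at hadj
    exact hadj
  tfae_have 1 → 2 := by
    intro h
    refine (dec_iff _ α).1 (hI P8 hP8 α hα0 hα1 ?_)
    obtain ⟨c, hc, N, hd⟩ := (ex_iff _ hne α).1 h
    refine ⟨c / 36, by positivity, N, fun n hn => ?_⟩
    obtain ⟨G, hG, hdG⟩ := hd n hn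
    obtain ⟨H, -, hH, hprs⟩ := hD8 (Fin n) G hG
    refine ⟨H, hH, ?_⟩
    have h4 : (prs G : ℝ) ≤ 36 * prs H := by exact_mod_cast hprs
    linarith
  tfae_have 2 → 3 := by
    intro h
    refine h1 _ α hα0 (Dec.mono ?_ ((dec_iff P8 α).2 h))
    exact fun _ _ hG => hG.2.2
  tfae_have 3 → 4 := by
    intro h
    refine (ram_iff _ α).1 (h2 _ ?_ ?_ α hα0 h)
    · exact fun n G H hle hG => free_mono _ hle hG
    · exact fun n => free_bot _ hadj
  tfae_have 4 → 1 := fun h => (ex_iff _ hne α).2 (h3 _ α hα0 hα1 ((ram_iff _ α).2 h))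
  tfae_finish

end Pool.Agent.H35.RD
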