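import Mathlib

/-!
# Decompositions into graphs of a class which is closed under locally injective preimages

Definitions and the statements of the steps. All proofs are elementary; sketches are in the
comments.
-/

set_option autoImplicit false
set_option linter.unusedSectionVars false

open Finset
open scoped Classical

namespace Pool.Agent.H35.RD

/-! ### Definitions -/

/-- `f` is a homomorphism which is injective on the set of the neighbours of each vertex. -/
def LocInj {V W : Type} (H : SimpleGraph V) (G : SimpleGraph W) (f : V → W) : Prop :=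
  (∀ x y, H.Adj x y → G.Adj (f x) (f y)) ∧
    ∀ x y y', H.Adj x y → H.Adj x y' → f y = f y' → y = y'

/-- The class `P` of finite graphs is closed under preimages along locally injective
homomorphisms, and it contains the graph `H` on `Fin n` whenever each vertex has at most one larger
neighbour in `H` (these graphs are the forests, in a suitable numbering). -/
structure Cls (P : ∀ V : Type, SimpleGraph V → Prop) : Prop where
  pull : ∀ (V W : Type) [Fintype V] [Fintype W] (H : SimpleGraph V) (G : SimpleGraph W)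
    (f : V → W), LocInj H G f → P W G → P V H
  forest : ∀ (n : ℕ) (H : SimpleGraph (Fin n)),
    (∀ x y y', x < y → x < y' → H.Adj x y → H.Adj x y' → y = y') → P (Fin n) H

section
variable {V W : Type} [Fintype V] [Fintype W]

/-- the degree -/
noncomputable def dg (G : SimpleGraph V) (v : V) : ℕ := (univ.filter (fun w => G.Adj v w)).card

/-- the number of ordered pairs of adjacent vertices (twice the number of edges) -/
noncomputable def prs (G : SimpleGraph V) : ℕ :=
  (univ.filter (fun z : V × V => G.Adj z.1 z.2)).card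

/-- The edges `x y` of `R` such that `φ x` and `φ y` are adjacent in `G`, no other neighbour
of `x` in `R` is mapped to `φ y`, and no other neighbour of `y` in `R` is mapped to `φ x`. -/
def pb (R : SimpleGraph V) (G : SimpleGraph W) (φ : V → W) : SimpleGraph V where
  Adj x y := R.Adj x y ∧ G.Adj (φ x) (φ y) ∧ (∀ y', R.Adj x y' → φ y' = φ y → y' = y) ∧
    (∀ x', R.Adj y x' → φ x' = φ x → x' = x)
  symm := ⟨fun _ _ h => ⟨h.1.symm, h.2.1.symm, h.2.2.2, h.2.2.1⟩⟩
  loopless := ⟨fun _ h => R.irrefl h.1⟩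

end

/-- the edges of colour `i` -/
def mono {N q : ℕ} (χ : Sym2 (Fin N) → Fin q) (i : Fin q) : SimpleGraph (Fin N) where
  Adj x y := x ≠ y ∧ χ s(x, y) = i
  symm := ⟨fun x y h => ⟨h.1.symm, by rw [Sym2.eq_swap]; exact h.2⟩⟩
  loopless := ⟨fun _ h => h.1 rfl⟩

/-- No cycle of length 3, 4 or 8. -/
def P8 (V : Type) (G : SimpleGraph V) : Prop :=
  (SimpleGraph.cycleGraph 3).Free G ∧ (SimpleGraph.cycleGraph 4).Free G ∧
    (SimpleGraph.cycleGraph 8).Free G

/-! ### The four forms -/

/-- dense members of the class -/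
def Dense (P : ∀ V : Type, SimpleGraph V → Prop) (α : ℝ) : Prop :=
  ∃ c : ℝ, 0 < c ∧ ∃ n₀ : ℕ, ∀ n : ℕ, n₀ ≤ n → ∃ G : SimpleGraph (Fin n), P (Fin n) G ∧
    c * (n : ℝ) ^ (2 - α) ≤ prs G

/-- decompositions of the graphs of maximum degree at most `D` -/
def Dec (P : ∀ V : Type, SimpleGraph V → Prop) (α : ℝ) : Prop :=
  ∃ C : ℝ, ∀ (D : ℕ) (V : Type) [Fintype V] (R : SimpleGraph V), 1 ≤ D → (∀ v, dg R v ≤ D) →
    ∃ (q : ℕ) (H : Fin q → SimpleGraph V), (q : ℝ) ≤ C * (D : ℝ) ^ α ∧ (∀ i, P V (H i)) ∧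
      ∀ x y, R.Adj x y ↔ ∃ i, (H i).Adj x y

/-- decompositions of the complete graphs -/
def DecK (P : ∀ V : Type, SimpleGraph V → Prop) (α : ℝ) : Prop :=
  ∃ C : ℝ, ∀ n : ℕ, ∃ (q : ℕ) (H : Fin q → SimpleGraph (Fin n)), (q : ℝ) ≤ C * (n : ℝ) ^ α ∧
    (∀ i, P (Fin n) (H i)) ∧ ∀ x y, x ≠ y → ∃ i, (H i).Adj x y

/-- colourings of the complete graphs -/
def Ram (P : ∀ V : Type, SimpleGraph V → Prop) (α : ℝ) : Prop :=
  ∃ c : ℝ, 0 < c ∧ ∀ q N : ℕ, 1 ≤ q → (N : ℝ) ≤ c * (q : ℝ) ^ (1 / α) →
    ∃ χ : Sym2 (Fin N) → Fin q, ∀ i, P (Fin N) (mono χ i)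

/-! ### The steps -/

/-- RD-IND. A symmetric relation for which every nonempty subset contains a point related to at
most two others has an independent set of at least a third of the points. (Strong induction on
the number of points: take such a point `v` of `S`, delete it and the at most two points related
to it, and add `v` to the independent set of the rest.) -/
def S_IND : Prop :=
  ∀ (B : Type) (S : Finset B) (r : B → B → Prop), (∀ u v, r u v → r v u) →
    (∀ T ⊆ S, T.Nonempty → ∃ v ∈ T, (T.filter (fun u => u ≠ v ∧ r v u)).card ≤ 2) →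
    ∃ I ⊆ S, S.card ≤ 3 * I.card ∧ ∀ u ∈ I, ∀ v ∈ I, u ≠ v → ¬ r u v

/-- RD-C4R. A bipartite graph without cycles of length 8 has a subgraph without cycles of length
4 which has at least `1/18` of the edges.

Proof. Fix `b : B` and `N = {a | r a b}`. For `w ≠ b` let `K w = {a ∈ N | r a w}`; only the `w`
with at least two elements of `K w` matter.
(*) There are no distinct `w1 w2 w3` and distinct `a0 a1 a2 a3` with `a0, a1 ∈ K w1`,
`a1, a2 ∈ K w2`, `a2, a3 ∈ K w3` (else `b a0 w1 a1 w2 a2 w3 a3` is a cycle of length 8).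
Call `x ∈ N` rich if at least 3 of the sets `K w` with at least two elements contain it. Call
distinct `x, y` in `N` related if some `K w` contains both. Claim: there is no path
`x0 x1 x2 x3` (distinct rich vertices, consecutive ones related, by `w1, w2, w3`). Indeed if
`w1, w2, w3` are distinct, this is (*). If `w1 = w2 = w`, `w3` different: `x1` lies in some
`K u`, `u ≠ w, w3`, with another element `y`; if `y ≠ x2, x3` use `x3 (w3) x2 (w) x1 (u) y`; if
`y = x2` use `x3 (w3) x2 (u) x1 (w) x0`; if `y = x3` use `x2 (w3) x3 (u) x1 (w) x0`. The case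
`w2 = w3` is symmetric. If `w1 = w3 = w`, `w2` different: `x0` lies in some `K u`, `u ≠ w, w2`,
with another element `y`; if `y ≠ x1, x2` use `y (u) x0 (w) x1 (w2) x2`; if `y = x1` use
`x0 (u) x1 (w2) x2 (w) x3`; if `y = x2` use `x0 (u) x2 (w2) x1 (w) x3`. If all are equal to `w`:
`x0` lies in `K u`, `u ≠ w`, with another element `y`; pick `x_j ≠ x0, y`; it lies in `K u'`,
`u' ≠ w, u`, with another element `z`; if `z ≠ x0, y` use `y (u) x0 (w) x_j (u') z`; if `z = y`
use `x_i (w) x0 (u) y (u') x_j` with `x_i ≠ x0, x_j, y`; if `z = x0` use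
`y (u) x0 (u') x_j (w) x_i` with `x_i ≠ x0, x_j, y`.
Hence every nonempty set of rich vertices contains one related to at most two others (else a path
on four vertices can be built greedily), and by `S_IND` there is a set of pairwise unrelated rich
vertices of at least a third of the rich ones. Let `N' b ⊆ N` be the set of the vertices which
are not rich if these are at least half of `N`, and this set of unrelated vertices otherwise;
`#N ≤ 6 * #(N' b)`, and each `a ∈ N' b` lies in at most two `K w` with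
`#(K w ∩ N' b) ≥ 2` . Put `r1 a b := a ∈ N' b`; so `#r ≤ 6 * #r1`. For `a : A` relate the
distinct `b, w` in `{b | r1 a b}` if at least two `a'` satisfy `r1 a' b` and `r1 a' w`; each `b`
is related to at most two `w`. `S_IND` gives a third of them pairwise unrelated: `r' a b`. -/
def S_C4R : Prop :=
  ∀ (A B : Type) [Fintype A] [Fintype B] (r : A → B → Prop),
    (∀ a0 a1 a2 a3 b0 b1 b2 b3, [a0, a1, a2, a3].Nodup → [b0, b1, b2, b3].Nodup →
      r a0 b0 → r a1 b0 → r a1 b1 → r a2 b1 → r a2 b2 → r a3 b2 → r a3 b3 → ¬ r a0 b3) →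
    ∃ r' : A → B → Prop, (∀ a b, r' a b → r a b) ∧
      (∀ a a' b b', a ≠ a' → b ≠ b' → r' a b → r' a b' → r' a' b → ¬ r' a' b') ∧
      (univ.filter (fun z : A × B => r z.1 z.2)).card ≤
        18 * (univ.filter (fun z : A × B => r' z.1 z.2)).card

/-- RD-BIP. Every graph has a cut with at least half of the edges. (Take a cut with the largest
number of edges, or add up over all subsets `S`, or move vertices one by one.) -/
def S_BIP : Prop :=
  ∀ (V : Type) [Fintype V] (G : SimpleGraph V), ∃ S : Finset V,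
    prs G ≤ 4 * (univ.filter (fun z : V × V => z.1 ∈ S ∧ z.2 ∉ S ∧ G.Adj z.1 z.2)).card

/-- RD-D8. Uses RD-C4R and RD-BIP, with `A = {x // x ∈ S}`, `B = {x // x ∉ S}`. -/
def S_D8 : Prop :=
  ∀ (V : Type) [Fintype V] (G : SimpleGraph V), (SimpleGraph.cycleGraph 8).Free G →
    ∃ H : SimpleGraph V, H ≤ G ∧ P8 V H ∧ prs G ≤ 36 * prs H

/-- RD-P8. The graphs without cycles of length 3, 4 and 8 are such a class. (Pull: if
`x 0, …, x 7` is a cycle in `H`, then `f (x i) ≠ f (x (i + 1))` by adjacency, `f (x i) ≠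
f (x (i + 2))` by local injectivity, `f (x i) ≠ f (x (i + 3))` as otherwise
`f (x i), f (x (i + 1)), f (x (i + 2))` is a triangle, and `f (x i) ≠ f (x (i + 4))` as otherwise
`f (x i), …, f (x (i + 3))` is a cycle of length 4. Forest: the smallest vertex of a cycle has two
larger neighbours.) -/
def S_P8 : Prop := Cls P8

/-- RD-SPL. Splitting the vertices into vertices of degree at most `l`: the vertices of the new
graph are the pairs `(v, i)`, `i ≤ dg G v / l`, and `(v, i), (w, j)` are adjacent if `v w` is an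
edge, `i = rank v w / l` and `j = rank w v / l`, where `rank v w` is the number of the neighbours
of `v` which are smaller than `w` (`V` is linearly ordered through `Fintype.equivFin`). The
projection to `V` is locally injective. -/
def S_SPL : Prop :=
  ∀ (P : ∀ V : Type, SimpleGraph V → Prop), Cls P → ∀ (V : Type) [Fintype V] (G : SimpleGraph V),
    P V G → ∀ l : ℕ, 1 ≤ l → ∃ (W : Type) (_ : Fintype W) (G' : SimpleGraph W), P W G' ∧
      Fintype.card W * l ≤ Fintype.card V * l + prs G ∧ Fintype.card V ≤ Fintype.card W ∧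
      prs G' = prs G ∧ ∀ w, dg G' w ≤ l

/-- RD-KEEP. Probability that an edge is kept. Compare `card_two` and `card_three` of
`Pool/Agent/H20/RM/Cov.lean` (there `W = Fin N`). With `M = card W`, `n = card V`: the number of
`φ` with `G.Adj (φ x) (φ y)` is `prs G * M ^ (n - 2)`, the number of those with moreover
`φ y' = φ y` is `prs G * M ^ (n - 3)` for each `y' ≠ x, y`, and there are at most `2 Δ` such bad
events. -/
def S_KEEP : Prop :=
  ∀ (V W : Type) [Fintype V] [Fintype W] (R : SimpleGraph V) (G : SimpleGraph W) (Δ : ℕ),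
    (∀ v, dg R v ≤ Δ) → 4 * Δ ≤ Fintype.card W → ∀ x y, R.Adj x y →
      (prs G : ℝ) / (2 * (Fintype.card W : ℝ) ^ 2) * (Fintype.card (V → W) : ℝ) ≤
        (univ.filter (fun φ : V → W => (pb R G φ).Adj x y)).card

/-- RD-POT. Exponential moment of the remaining degree. Induction on `T` (for all `N`):
`Fin (T + 1) → V → W` is `(V → W) × (Fin T → V → W)` (`Fin.consEquiv` / `Fin.cons`). For the first
map `φ` let `X φ = #{y ∈ N | (pb R G φ).Adj x y}`; then `X φ ≤ dg G (φ x) ≤ L` because the kept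
neighbours of `x` are mapped injectively to neighbours of `φ x`, and
`∑ φ, X φ ≥ p * #N * card (V → W)`. By the induction hypothesis for `N.filter (not kept)` the sum
is at most `card ^ T * ∑ φ, exp (t * (#N - X φ))` with `t = θ * (1 - p / 2) ^ T ≤ 1 / L`, and
`exp (- t X) ≤ 1 - t X / 2` for `0 ≤ t X ≤ 1`, `1 - t p #N / 2 ≤ exp (- t p #N / 2)`. -/
def S_POT : Prop :=
  ∀ (V W : Type) [Fintype V] [Fintype W] (R : SimpleGraph V) (G : SimpleGraph W) (L : ℕ) (p : ℝ),
    (∀ w, dg G w ≤ L) → 0 < p → p ≤ 1 →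
    (∀ x y, R.Adj x y → p * (Fintype.card (V → W) : ℝ) ≤
      (univ.filter (fun φ : V → W => (pb R G φ).Adj x y)).card) →
    ∀ (x : V) (T : ℕ) (N : Finset V), (∀ y ∈ N, R.Adj x y) → ∀ θ : ℝ, 0 ≤ θ → θ * L ≤ 1 →
      ∑ Φ : Fin T → V → W,
          Real.exp (θ * (N.filter (fun y => ∀ i, ¬ (pb R G (Φ i)).Adj x y)).card) ≤
        (Fintype.card (V → W) : ℝ) ^ T * Real.exp (θ * (1 - p / 2) ^ T * N.card)

/-- RD-STEP. Halving the degree. Symmetric local lemma `Pool.Agent.H20.RM.LLL.lll`
(`Pool/Agent/H20/RM/LLL.lean`) with the coordinates `V` and the colours `Fin T → W`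
(swap arguments: `V → Fin T → W` and `Fin T → V → W`); the bad event at `x` is
`Δ < 2 * #{y | R.Adj x y ∧ no pb keeps x y}`; it depends on the coordinates at distance at most 2
from `x` (at most `(1 + Δ) ^ 2` vertices), so at most `(1 + Δ) ^ 4` events are dependent on it;
by the sum of exponentials with `θ = 1 / L` and `(1 - p / 2) ^ T ≤ 1 / 4` its probability is at
most `exp (- Δ / (4 L))`. -/
def S_STEP : Prop :=
  ∀ (V W : Type) [Fintype V] [Fintype W] (R : SimpleGraph V) (G : SimpleGraph W) (Δ L T : ℕ)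
    (p : ℝ), (∀ v, dg R v ≤ Δ) → (∀ w, dg G w ≤ L) → 1 ≤ L → 0 < p → p ≤ 1 → 0 < Fintype.card W →
    (∀ x y, R.Adj x y → p * (Fintype.card (V → W) : ℝ) ≤
      (univ.filter (fun φ : V → W => (pb R G φ).Adj x y)).card) →
    (1 - p / 2) ^ T ≤ 1 / 4 → 4 * Real.exp (-((Δ : ℝ) / (4 * L))) * (1 + Δ) ^ 4 ≤ 1 →
    ∃ Φ : Fin T → V → W, ∀ x,
      2 * (univ.filter (fun y => R.Adj x y ∧ ∀ i, ¬ (pb R G (Φ i)).Adj x y)).card ≤ Δ

/-- RD-FOR. A graph of maximum degree `D` is a union of `D` forests: number the vertices, and let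
`H i` consist of the edges `x y`, `x < y`, for which `y` is the `i`-th larger neighbour of `x`
(exactly `i` larger neighbours of `x` are smaller than `y`). -/
def S_FOR : Prop :=
  ∀ (P : ∀ V : Type, SimpleGraph V → Prop), Cls P → ∀ (V : Type) [Fintype V] (R : SimpleGraph V)
    (D : ℕ), (∀ v, dg R v ≤ D) → ∃ H : Fin D → SimpleGraph V, (∀ i, P V (H i)) ∧
      ∀ x y, R.Adj x y ↔ ∃ i, (H i).Adj x y

/-- RD-HALF. The cost of halving the degree: for `Δ ≥ Δ₀` take `n = 4 Δ` and a member `G₀` of the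
class with `n` vertices and `c n ^ (2 - α) ≤ prs G₀`, delete edges such that
`prs ≤ c n ^ (2 - α) + 2` (`P` is closed under subgraphs: `Cls.pull` with the identity), and split
with `l = ⌈c n ^ (1 - α)⌉` (`S_SPL`); now `n ≤ card W ≤ 3 n` (large `n`),
`p = prs G / (2 (card W) ^ 2) ≥ (c / 18) n ^ (-α)` (`S_KEEP`; use this lower bound as `p`, with
`c ≤ 1`), `T = ⌈(4 log 2) / p⌉ ≤ K Δ ^ α`, `L = l`; the exponential condition holds for large `Δ`
as `Δ / (4 l) ≥ c' Δ ^ α`. -/
def S_HALF : Prop :=
  ∀ (P : ∀ V : Type, SimpleGraph V → Prop), Cls P → ∀ α : ℝ, 0 < α → α < 1 → Dense P α →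
    ∃ (K : ℝ) (Δ₀ : ℕ), 0 < K ∧ ∀ Δ : ℕ, Δ₀ ≤ Δ → ∀ (V : Type) [Fintype V] (R : SimpleGraph V),
      (∀ v, dg R v ≤ Δ) → ∃ (T : ℕ) (H : Fin T → SimpleGraph V), (T : ℝ) ≤ K * (Δ : ℝ) ^ α ∧
        (∀ i, P V (H i)) ∧ (∀ i, H i ≤ R) ∧
        ∀ x, 2 * (univ.filter (fun y => R.Adj x y ∧ ∀ i, ¬ (H i).Adj x y)).card ≤ Δ

/-- RD-ITER. From `S_HALF` and `S_FOR` by strong induction on `D`: with
`C = max Δ₀ (K / (1 - 2 ^ (-α)))`. -/
def S_ITER : Prop :=
  ∀ (P : ∀ V : Type, SimpleGraph V → Prop), Cls P → ∀ α : ℝ, 0 < α → α < 1 → Dense P α → Dec P α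

/-- RD-CON1. The complete graph on `Fin n` has maximum degree `n - 1` (`n = 0, 1` separately with
`q = 0`). -/
def S_CON1 : Prop :=
  ∀ (P : ∀ V : Type, SimpleGraph V → Prop) (α : ℝ), 0 < α → Dec P α → DecK P α

/-- RD-CON2. Give the edge `x y` some colour `i` with `(H i).Adj x y`. -/
def S_CON2 : Prop :=
  ∀ (P : ∀ V : Type, SimpleGraph V → Prop),
    (∀ (n : ℕ) (G H : SimpleGraph (Fin n)), H ≤ G → P (Fin n) G → P (Fin n) H) →
    (∀ n : ℕ, P (Fin n) ⊥) → ∀ α : ℝ, 0 < α → DecK P α → Ram P α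

/-- RD-CON3. Pigeonhole with `q = ⌈(n / c) ^ α⌉` colours: `∑ i, prs (mono χ i) = n (n - 1)`. -/
def S_CON3 : Prop :=
  ∀ (P : ∀ V : Type, SimpleGraph V → Prop) (α : ℝ), 0 < α → α < 1 → Ram P α → Dense P α

/-- RD-GIR. The graphs without cycles of length at most `m` are such a class. (Pull: let
`x 0, …, x (j - 1)` be a cycle in `H`, `j ≤ m`. If `f` is injective on it, it is mapped to a cycle.
Otherwise choose `f (x a) = f (x b)`, `a < b`, with `b - a` minimal; `b - a ≥ 3` by adjacency and
local injectivity, and `f (x a), …, f (x (b - 1))` is a cycle of length `b - a < j`.) -/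
def S_GIR : Prop :=
  ∀ m : ℕ, Cls (fun _ G => ∀ j : ℕ, 3 ≤ j → j ≤ m → (SimpleGraph.cycleGraph j).Free G)

/-- RD-KST. The graphs without `K_{s,t}`, `s, t ≥ 2`, are such a class (compare `pb_noK` in
`Pool/Agent/H20/RM/Cov.lean`). -/
def S_KST : Prop :=
  ∀ s t : ℕ, 2 ≤ s → 2 ≤ t →
    Cls (fun _ G => (completeBipartiteGraph (Fin s) (Fin t)).Free G)

end Pool.Agent.H35.RD
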