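import Pool.Agent.H35.RD.Stm

/-!
# Regular graphs of a class which is closed under locally injective preimages

Statements of the steps (project RG). All proofs are elementary; sketches are in the comments.
-/

set_option autoImplicit false
set_option linter.unusedSectionVars false

open Finset
open scoped Classical

namespace Pool.Agent.H35.RD

/-- regular bipartite members of the class with few vertices -/
def Reg (P : ∀ V : Type, SimpleGraph V → Prop) (β : ℝ) : Prop :=
  ∃ C : ℝ, ∀ d : ℕ, 1 ≤ d → ∃ (m : ℕ) (G : SimpleGraph (Fin m)) (f : Fin m → Bool), 0 < m ∧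
    (m : ℝ) ≤ C * (d : ℝ) ^ β ∧ P (Fin m) G ∧ (∀ x y, G.Adj x y → f x ≠ f y) ∧ ∀ v, dg G v = d

/-- RG-CW (Alon, Friedland, Kalai). A graph with more than `(q - 1) n` edges, `q` prime, has a
nonempty subgraph with all degrees divisible by `q`. Chevalley-Warning
(`char_dvd_card_solutions_of_sum_lt` in Mathlib) over `ZMod q` for the polynomials
`∑ e ∋ v, X e ^ (q - 1)`, one for each vertex `v`, in variables indexed by the edges: besides `0`
there is another common zero `x`; take the edges with `x e ≠ 0` (`x ^ (q - 1) = 1` for `x ≠ 0`).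
(`prs G` is twice the number of edges; `prs_eq` in `HALF.lean`.) -/
def S_CW : Prop :=
  ∀ (V : Type) [Fintype V] (G : SimpleGraph V) (q : ℕ), q.Prime →
    2 * ((q - 1) * Fintype.card V) < prs G →
    ∃ G' : SimpleGraph V, G' ≤ G ∧ 0 < prs G' ∧ ∀ v, q ∣ dg G' v

/-- RG-SPX. Exact splitting of the vertices: the vertices of the new graph are the pairs `(v, i)`,
`i < dg G v / q`, and `(v, i), (w, j)` are adjacent if `v w` is an edge, `i = rank v w / q` and
`j = rank w v / q`, where `rank v w` is the number of the neighbours of `v` which are smaller than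
`w`. Compare `SPL.lean` (`rk`, `rk_lt`, `rk_inj`, `SG`). -/
def S_SPX : Prop :=
  ∀ (P : ∀ V : Type, SimpleGraph V → Prop), Cls P → ∀ (V : Type) [Fintype V] (G : SimpleGraph V),
    P V G → ∀ q : ℕ, 1 ≤ q → (∀ v, q ∣ dg G v) → ∃ (W : Type) (_ : Fintype W) (G' : SimpleGraph W),
      P W G' ∧ Fintype.card W * q = prs G ∧ ∀ w, dg G' w = q

/-- RG-DBL. The bipartite double cover: `(x, b)` and `(y, b')` are adjacent if `x, y` are adjacent
and `b ≠ b'`. -/
def S_DBL : Prop :=
  ∀ (P : ∀ V : Type, SimpleGraph V → Prop), Cls P → ∀ (V : Type) [Fintype V] (G : SimpleGraph V)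
    (q : ℕ), P V G → (∀ v, dg G v = q) → ∃ G' : SimpleGraph (V × Bool), P (V × Bool) G' ∧
      (∀ x y, G'.Adj x y → x.2 ≠ y.2) ∧ ∀ w, dg G' w = q

/-- RG-KON (König). A `q`-regular graph on `V × Bool` with all edges between the two copies of `V`
has a `d`-regular spanning subgraph for every `d ≤ q`. (Hall's theorem in Mathlib,
`Finset.all_card_le_biUnion_card_iff_exists_injective`, gives a perfect matching when `q ≥ 1`;
delete it, induction on `q - d`.) -/
def S_KON : Prop :=
  ∀ (V : Type) [Fintype V] (G : SimpleGraph (V × Bool)) (q d : ℕ), d ≤ q →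
    (∀ x y, G.Adj x y → x.2 ≠ y.2) → (∀ w, dg G w = q) →
    ∃ H : SimpleGraph (V × Bool), H ≤ G ∧ ∀ w, dg H w = d

/-- RG-REG. Assembly: for `d ≥ 1` take a prime `q`, `d ≤ q ≤ 2 d` (Bertrand), the least `n` which is
at least `n₀` and satisfies `c n ^ (1 + 1 / β) > 2 q n`, so `n ≤ C q ^ β`, delete edges such that
`prs ≤ 2 q n + 2`, and apply the four steps. -/
def S_REG : Prop :=
  ∀ (P : ∀ V : Type, SimpleGraph V → Prop), Cls P → ∀ β : ℝ, 1 < β → Dense P (1 - 1 / β) → Reg P β

/-- RG-BACK. Disjoint copies: for large `n` take the largest `d` with `C d ^ β ≤ n`, and `n / m`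
copies of the `d`-regular graph on `m ≤ C d ^ β` vertices (`i` and `j` in `Fin n` are adjacent if
both are less than `m * (n / m)`, `i / m = j / m`, and `i % m`, `j % m` are adjacent; the map
`i ↦ i % m` is locally injective). -/
def S_BACK : Prop :=
  ∀ (P : ∀ V : Type, SimpleGraph V → Prop), Cls P → ∀ β : ℝ, 1 < β → Reg P β → Dense P (1 - 1 / β)

end Pool.Agent.H35.RD
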